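import Mathlib
import Pool.Agent.Helper113.Gorin.Schottky
set_option autoImplicit false

/-!
# The ring of holomorphic functions on the unit disc: basic facts
-/

open Metric Set Filter Topology

namespace Pool.Agent.R614.Hol

/-- holomorphic functions on the disc (with the value at `0` outside the disc) -/
abbrev hset : Set (ℂ → ℂ) := {g : ℂ → ℂ | DifferentiableOn ℂ g (Metric.ball (0:ℂ) 1) ∧
                ∀ z ∉ Metric.ball (0:ℂ) 1, g z = g 0}

/-- the ring of holomorphic functions on the unit disc -/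
abbrev HD : Type := ↥(Subring.closure {g : ℂ → ℂ | DifferentiableOn ℂ g (Metric.ball (0:ℂ) 1) ∧
                ∀ z ∉ Metric.ball (0:ℂ) 1, g z = g 0})

/-- the open unit disc -/
abbrev D : Set ℂ := ball (0:ℂ) 1

theorem zero_mem : (0:ℂ) ∈ D := by simp

/-- the subring -/
def sr : Subring (ℂ → ℂ) where
  carrier := hset
  zero_mem' := ⟨differentiableOn_const _, fun _ _ => rfl⟩
  one_mem' := ⟨differentiableOn_const _, fun _ _ => rfl⟩
  add_mem' := fun {f g} hf hg => ⟨hf.1.add hg.1, fun z hz => by simp [hf.2 z hz, hg.2 z hz]⟩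
  mul_mem' := fun {f g} hf hg => ⟨hf.1.mul hg.1, fun z hz => by simp [hf.2 z hz, hg.2 z hz]⟩
  neg_mem' := fun {f} hf => ⟨hf.1.neg, fun z hz => by simp [hf.2 z hz]⟩

theorem mem_iff (g : ℂ → ℂ) : g ∈ Subring.closure hset ↔ g ∈ hset := by
  have : Subring.closure hset = sr := Subring.closure_eq sr
  rw [this]; rfl

theorem diff (f : HD) : DifferentiableOn ℂ f.1 D := ((mem_iff _).1 f.2).1

theorem out (f : HD) {z : ℂ} (hz : z ∉ D) : f.1 z = f.1 0 := ((mem_iff _).1 f.2).2 z hz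

theorem cont (f : HD) : ContinuousOn f.1 D := (diff f).continuousOn

theorem diffAt (f : HD) {z : ℂ} (hz : z ∈ D) : DifferentiableAt ℂ f.1 z :=
  (diff f).differentiableAt (isOpen_ball.mem_nhds hz)

open Classical in
/-- the element of the ring given by a holomorphic function -/
noncomputable def mk (g : ℂ → ℂ) (hg : DifferentiableOn ℂ g D) : HD :=
  ⟨fun z => if z ∈ D then g z else g 0, (mem_iff _).2 ⟨hg.congr fun z hz => if_pos hz,
    fun z hz => by simp only [if_neg hz, if_pos zero_mem]⟩⟩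

theorem mk_apply {g : ℂ → ℂ} {hg : DifferentiableOn ℂ g D} {z : ℂ} (hz : z ∈ D) :
    (mk g hg).1 z = g z := if_pos hz

theorem ext' {f g : HD} (h : ∀ z ∈ D, f.1 z = g.1 z) : f = g := by
  apply Subtype.ext
  funext z
  by_cases hz : z ∈ D
  · exact h z hz
  · rw [out f hz, out g hz, h 0 zero_mem]

theorem add_apply (f g : HD) (z : ℂ) : (f + g).1 z = f.1 z + g.1 z := rfl
theorem sub_apply (f g : HD) (z : ℂ) : (f - g).1 z = f.1 z - g.1 z := rfl
theorem mul_apply (f g : HD) (z : ℂ) : (f * g).1 z = f.1 z * g.1 z := rfl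
theorem neg_apply (f : HD) (z : ℂ) : (-f).1 z = -f.1 z := rfl
theorem one_apply (z : ℂ) : (1 : HD).1 z = 1 := rfl
theorem zero_apply (z : ℂ) : (0 : HD).1 z = 0 := rfl
theorem natCast_apply (n : ℕ) (z : ℂ) : (n : HD).1 z = n := by
  rw [Subring.coe_natCast]; rfl
theorem pow_apply (f : HD) (n : ℕ) (z : ℂ) : (f ^ n).1 z = f.1 z ^ n := by
  rw [Subring.coe_pow]; rfl

/-- constants -/
noncomputable def cst (c : ℂ) : HD := mk (fun _ => c) (differentiableOn_const _)

theorem cst_apply (c z : ℂ) : (cst c).1 z = c := by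
  by_cases hz : z ∈ D
  · exact mk_apply hz
  · rw [out _ hz, cst, mk_apply zero_mem]

theorem natCast_eq (n : ℕ) : (n : HD) = cst n := by
  apply ext'; intro z hz; rw [cst_apply, natCast_apply]

theorem cst_inj {a b : ℂ} (h : cst a = cst b) : a = b := by
  rw [← cst_apply a 0, h, cst_apply]

theorem isUnit_iff (f : HD) : IsUnit f ↔ ∀ z ∈ D, f.1 z ≠ 0 := by
  constructor
  · rintro ⟨u, rfl⟩ z _ h
    have : (u.1 * u.2).1 z = 1 := by rw [u.3, one_apply]
    rw [mul_apply, h, zero_mul] at this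
    exact zero_ne_one this
  · intro h
    have hd : DifferentiableOn ℂ (fun z => (f.1 z)⁻¹) D := (diff f).inv h
    refine IsUnit.of_mul_eq_one (mk _ hd) (ext' fun z hz => ?_)
    rw [mul_apply, mk_apply hz, mul_inv_cancel₀ (h z hz), one_apply]

theorem not_isUnit_iff (f : HD) : ¬ IsUnit f ↔ ∃ z ∈ D, f.1 z = 0 := by
  rw [isUnit_iff]; push Not; rfl

/-- the function `z - a` -/
noncomputable def lin (a : ℂ) : HD := mk (fun z => z - a) (differentiableOn_id.sub_const a)

theorem lin_apply (a : ℂ) {z : ℂ} (hz : z ∈ D) : (lin a).1 z = z - a := mk_apply hz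

theorem lin_dvd {a : ℂ} (ha : a ∈ D) (f : HD) : lin a ∣ f ↔ f.1 a = 0 := by
  constructor
  · rintro ⟨g, rfl⟩
    rw [mul_apply, lin_apply a ha, sub_self, zero_mul]
  · intro h
    have hd : DifferentiableOn ℂ (dslope f.1 a) D :=
      (Complex.differentiableOn_dslope (isOpen_ball.mem_nhds ha)).2 (diff f)
    refine ⟨mk _ hd, ext' fun z hz => ?_⟩
    rw [mul_apply, mk_apply hz, lin_apply a hz]
    have := sub_smul_dslope f.1 a z
    rw [smul_eq_mul, h, sub_zero] at this
    exact this.symm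

theorem not_isUnit_lin {a : ℂ} (ha : a ∈ D) : ¬ IsUnit (lin a) := by
  rw [not_isUnit_iff]
  exact ⟨a, ha, by rw [lin_apply a ha, sub_self]⟩

/-- functions vanishing outside a point vanish -/
theorem eq_zero_of_ne {a : ℂ} {u : HD} (h : ∀ z ∈ D, z ≠ a → u.1 z = 0) : u = 0 := by
  apply ext'
  intro z hz
  rw [zero_apply]
  by_cases hza : z = a
  · subst hza
    have h1 : ContinuousAt u.1 z := (diffAt u hz).continuousAt
    have h2 : Tendsto u.1 (𝓝[≠] z) (𝓝 (u.1 z)) := h1.tendsto.mono_left nhdsWithin_le_nhds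
    have h3 : Tendsto u.1 (𝓝[≠] z) (𝓝 0) := by
      refine tendsto_const_nhds.congr' ?_
      have h4 : D ∈ 𝓝[≠] z := mem_nhdsWithin_of_mem_nhds (isOpen_ball.mem_nhds hz)
      filter_upwards [h4, self_mem_nhdsWithin] with w hw hw'
      exact (h w hw hw').symm
    exact tendsto_nhds_unique h2 h3
  · exact h z hz hza

theorem lin_cancel {a : ℂ} {u : HD} (h : lin a * u = 0) : u = 0 := by
  refine eq_zero_of_ne (a := a) fun z hz hza => ?_
  have h1 : (lin a * u).1 z = 0 := by rw [h]; rfl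
  rw [mul_apply, lin_apply a hz] at h1
  exact (mul_eq_zero.1 h1).resolve_left (sub_ne_zero.2 hza)

theorem lin_cancel' {a : ℂ} {u v : HD} (h : lin a * u = lin a * v) : u = v := by
  have : lin a * (u - v) = 0 := by rw [mul_sub, h, sub_self]
  exact sub_eq_zero.1 (lin_cancel this)

theorem irreducible_lin {a : ℂ} (ha : a ∈ D) : Irreducible (lin a) := by
  refine ⟨not_isUnit_lin ha, fun f g hfg => ?_⟩
  have h0 : f.1 a * g.1 a = 0 := by
    rw [← mul_apply, ← hfg, lin_apply a ha, sub_self]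
  rcases mul_eq_zero.1 h0 with h | h
  · right
    obtain ⟨k, rfl⟩ := (lin_dvd ha f).2 h
    rw [mul_assoc] at hfg
    have : lin a * 1 = lin a * (k * g) := by rw [mul_one]; exact hfg
    have := lin_cancel' this
    exact IsUnit.of_mul_eq_one k (by rw [mul_comm]; exact this.symm)
  · left
    obtain ⟨k, rfl⟩ := (lin_dvd ha g).2 h
    have : lin a * 1 = lin a * (f * k) := by
      rw [mul_one]; exact hfg.trans (by ring)
    have := lin_cancel' this
    exact IsUnit.of_mul_eq_one k this.symm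

theorem irreducible_iff (p : HD) : Irreducible p ↔ ∃ a ∈ D, Associated (lin a) p := by
  constructor
  · intro h
    obtain ⟨a, ha, h0⟩ := (not_isUnit_iff p).1 h.not_isUnit
    obtain ⟨k, hk⟩ := (lin_dvd ha p).2 h0
    rcases h.isUnit_or_isUnit hk with h1 | h1
    · exact absurd h1 (not_isUnit_lin ha)
    · exact ⟨a, ha, h1.unit, hk.symm⟩
  · rintro ⟨a, ha, h⟩
    exact h.irreducible (irreducible_lin ha)

theorem pow_lin_dvd_mul {a : ℂ} (ha : a ∈ D) {u f : HD} (hu : u.1 a ≠ 0) (m : ℕ)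
    (h : lin a ^ m ∣ u * f) : lin a ^ m ∣ f := by
  induction m generalizing f with
  | zero => simp
  | succ m ih =>
    have h1 : lin a ∣ u * f := (dvd_pow_self _ (Nat.succ_ne_zero m)).trans h
    rw [lin_dvd ha, mul_apply] at h1
    obtain ⟨g, rfl⟩ := (lin_dvd ha f).2 ((mul_eq_zero.1 h1).resolve_left hu)
    obtain ⟨k, hk⟩ := h
    have h2 : lin a * (u * g) = lin a * (lin a ^ m * k) := by
      calc _ = u * (lin a * g) := by ring
        _ = _ := by rw [hk]; ring
    obtain ⟨l, hl⟩ := ih ⟨k, lin_cancel' h2⟩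
    exact ⟨l, by rw [hl]; ring⟩

/-- the identity theorem on a segment -/
theorem eq_const_of_segment (x : HD) (c : ℂ)
    (h : ∀ t : ℝ, 0 ≤ t → t ≤ 1/4 → x.1 t = c) : x = cst c := by
  have hA : AnalyticOnNhd ℂ x.1 D := (diff x).analyticOnNhd isOpen_ball
  have hB : AnalyticOnNhd ℂ (fun _ => c) D := analyticOnNhd_const
  have hf : ∃ᶠ z in 𝓝[≠] (0:ℂ), x.1 z = (fun _ => c) z := by
    have ht : Tendsto (fun n : ℕ => ((1/(n+4) : ℝ) : ℂ)) atTop (𝓝[≠] (0:ℂ)) := by
      refine tendsto_nhdsWithin_iff.2 ⟨?_, Eventually.of_forall fun n => ?_⟩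
      · have h1 : Tendsto (fun n : ℕ => (1/((n:ℝ)+4) : ℝ)) atTop (𝓝 0) := by
          have := tendsto_const_div_atTop_nhds_zero_nat (1:ℝ)
          have h2 := (tendsto_add_atTop_iff_nat 4).2 this
          simpa using h2
        have := (Complex.continuous_ofReal.tendsto 0).comp h1
        rw [Complex.ofReal_zero] at this
        exact this
      · have : (0:ℝ) < 1/((n:ℝ)+4) := by positivity
        simp only [mem_compl_iff, mem_singleton_iff]
        exact_mod_cast this.ne'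
    refine ht.frequently (Frequently.of_forall fun n => ?_)
    have h0 : (0:ℝ) ≤ 1/((n:ℝ)+4) := by positivity
    exact h _ h0 (by gcongr; linarith [Nat.cast_nonneg (α := ℝ) n])
  apply ext'
  intro z hz
  rw [cst_apply]
  exact hA.eqOn_of_preconnected_of_frequently_eq hB (convex_ball (0:ℂ) 1).isPreconnected
    zero_mem hf hz

/-! ### growth -/

/-- `e` and `e - 1` are units -/
def E (e : HD) : Prop := IsUnit e ∧ IsUnit (e - 1)

theorem growth (e : HD) (he : E e) : ∃ M : ℝ, 0 ≤ M ∧ ∀ z ∈ D,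
    ‖e.1 z‖ ≤ Real.exp (Real.pi * Real.exp (M / (1 - ‖z‖))) := by
  set f : ℂ → ℂ := fun z => 2 * e.1 z - 1 with hf
  have hfd : DifferentiableOn ℂ f D := ((diff e).const_mul 2).sub_const 1
  have h1 : ∀ z ∈ D, f z ≠ 1 := by
    intro z hz h
    refine (isUnit_iff _).1 he.2 z hz ?_
    rw [sub_apply, one_apply]
    simp only [hf] at h
    linear_combination h / 2
  have h2 : ∀ z ∈ D, f z ≠ -1 := by
    intro z hz h
    refine (isUnit_iff _).1 he.1 z hz ?_
    simp only [hf] at h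
    linear_combination h / 2
  obtain ⟨F, hF, hF', hF0⟩ := H113G.J_schottky.exists_cos_ctrl hfd h1 h2
  have hFint : ∀ z ∈ D, ∀ n : ℤ, F z ≠ n := by
    intro z hz n h
    have h3 := hF' z hz
    obtain ⟨ε, hε, he⟩ := H113G.J_schottky.cosint n
    rw [h, mul_comm, he] at h3
    rcases hε with rfl | rfl
    · exact h1 z hz (by rw [← h3]; simp)
    · exact h2 z hz (by rw [← h3]; simp)
  obtain ⟨g, hg, hg', hg0⟩ := H113G.J_schottky.exists_cos_ctrl hF
    (fun z hz => by simpa using hFint z hz 1)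
    (fun z hz => by simpa using hFint z hz (-1))
  have hom : ∀ v : ℂ, ∃ w, dist w v < 2 ∧ ∀ z ∈ ball (0:ℂ) 1, g z ≠ w := by
    intro v
    obtain ⟨w, hw, n, hn⟩ := H113G.J_schottky.net v
    refine ⟨w, hw, fun z hz h => ?_⟩
    apply hFint z hz n
    rw [← hg' z hz, h, hn]
  refine ⟨Real.pi * (‖g 0‖ + 192), by positivity, fun z hz => ?_⟩
  have hz1 : ‖z‖ < 1 := by simpa using hz
  have hpos : 0 < 1 - ‖z‖ := by linarith
  have hb := H113G.J_schottky.bloch hg two_pos hom hz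
  have hgz : ‖g z‖ ≤ (‖g 0‖ + 192) / (1 - ‖z‖) := by
    have h4 : ‖g z‖ ≤ ‖g z - g 0‖ + ‖g 0‖ := by simpa using norm_add_le (g z - g 0) (g 0)
    have h5 : ‖g 0‖ ≤ ‖g 0‖ / (1 - ‖z‖) := by
      rw [le_div_iff₀ hpos]
      nlinarith [norm_nonneg (g 0), norm_nonneg z]
    rw [add_div]
    have h6 : (96:ℝ) * 2 = 192 := by norm_num
    rw [h6] at hb
    linarith
  have hfz : ‖f z‖ ≤ Real.exp (Real.pi * Real.exp (Real.pi * (‖g 0‖ + 192) / (1 - ‖z‖))) := by
    rw [← hF' z hz]
    refine (H113G.J_schottky.norm_cos_le _).trans (Real.exp_le_exp.2 ?_)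
    rw [norm_mul, Complex.norm_real, Real.norm_eq_abs, abs_of_pos Real.pi_pos]
    refine mul_le_mul_of_nonneg_left ?_ Real.pi_pos.le
    rw [← hg' z hz]
    refine (H113G.J_schottky.norm_cos_le _).trans (Real.exp_le_exp.2 ?_)
    rw [norm_mul, Complex.norm_real, Real.norm_eq_abs, abs_of_pos Real.pi_pos, mul_div_assoc]
    exact mul_le_mul_of_nonneg_left hgz Real.pi_pos.le
  have h7 : e.1 z = (f z + 1) / 2 := by simp only [hf]; ring
  rw [h7, norm_div, Complex.norm_ofNat, div_le_iff₀ (by norm_num)]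
  refine (norm_add_le _ _).trans ?_
  rw [norm_one]
  have h8 : 1 ≤ Real.exp (Real.pi * Real.exp (Real.pi * (‖g 0‖ + 192) / (1 - ‖z‖))) :=
    Real.one_le_exp (by positivity)
  linarith

/-- the growth class -/
def G2 (x : HD) : Prop := ∃ e₁ e₂ : HD, E e₁ ∧ E e₂ ∧ x = e₁ - e₂

theorem G2.growth {x : HD} (hx : G2 x) : ∃ M : ℝ, 0 ≤ M ∧ ∀ z ∈ D,
    ‖x.1 z‖ ≤ 2 * Real.exp (Real.pi * Real.exp (M / (1 - ‖z‖))) := by
  obtain ⟨e₁, e₂, h1, h2, rfl⟩ := hx
  obtain ⟨M₁, hM₁, h1⟩ := Hol.growth e₁ h1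
  obtain ⟨M₂, hM₂, h2⟩ := Hol.growth e₂ h2
  refine ⟨max M₁ M₂, le_max_of_le_left hM₁, fun z hz => ?_⟩
  have hz1 : ‖z‖ < 1 := by simpa using hz
  have hpos : 0 < 1 - ‖z‖ := by linarith
  rw [sub_apply]
  refine (norm_sub_le _ _).trans ?_
  rw [two_mul]
  have hm : ∀ M : ℝ, M ≤ max M₁ M₂ → Real.exp (Real.pi * Real.exp (M / (1 - ‖z‖))) ≤
      Real.exp (Real.pi * Real.exp (max M₁ M₂ / (1 - ‖z‖))) := by
    intro M hM
    gcongr
  exact add_le_add ((h1 z hz).trans (hm _ (le_max_left _ _)))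
    ((h2 z hz).trans (hm _ (le_max_right _ _)))

theorem G2_of_bounded {x : HD} {R : ℝ} (h : ∀ z ∈ D, ‖x.1 z‖ ≤ R) : G2 x := by
  have hR : 0 ≤ R := (norm_nonneg _).trans (h 0 zero_mem)
  have hE : ∀ y : HD, (∀ z ∈ D, 2 ≤ ‖y.1 z‖) → E y := by
    intro y hy
    constructor
    · rw [isUnit_iff]
      intro z hz h0
      have := hy z hz
      rw [h0, norm_zero] at this
      linarith
    · rw [isUnit_iff]
      intro z hz h0
      have := hy z hz
      rw [sub_apply, one_apply, sub_eq_zero] at h0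
      rw [h0, norm_one] at this
      linarith
  refine ⟨x + cst (R + 2 : ℝ), cst (R + 2 : ℝ), hE _ fun z hz => ?_, hE _ fun z hz => ?_, by ring⟩
  · rw [add_apply, cst_apply]
    have h1 : ‖((R + 2 : ℝ) : ℂ)‖ = R + 2 := by
      rw [Complex.norm_real, Real.norm_eq_abs, abs_of_nonneg (by linarith)]
    have h2 := norm_sub_norm_le ((R + 2 : ℝ) : ℂ) (-x.1 z)
    rw [h1, norm_neg, sub_neg_eq_add, add_comm ((R + 2 : ℝ) : ℂ)] at h2
    linarith [h z hz]
  · rw [cst_apply, Complex.norm_real, Real.norm_eq_abs, abs_of_nonneg (by linarith)]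
    linarith

end Pool.Agent.R614.Hol
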