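import Pool.Agent.R614.HD.Interp
set_option autoImplicit false

/-!
# The natural numbers in the ring of holomorphic functions on the disc
-/

open Metric Set Filter Topology Polynomial

namespace Pool.Agent.R614.Hol

theorem blaschke (y : HD) (a : ℝ) (ha0 : 0 < a) (ha1 : a < 1) (n : ℕ) (h : lin (a : ℂ) ^ n ∣ y)
    (B : ℝ) (hB : ∀ z : ℂ, ‖z‖ ≤ (1 + a) / 2 → ‖y.1 z‖ ≤ B) (t : ℝ) (ht0 : 0 ≤ t) (hta : t < a) :
    ‖y.1 t‖ ≤ B * (a / ((1 + a) / 2)) ^ n := by
  set r := (1 + a) / 2 with hr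
  have hr1 : r < 1 := by rw [hr]; linarith
  have har : a < r := by rw [hr]; linarith
  set R := r - t with hR
  have hR0 : 0 < R := by rw [hR]; linarith
  obtain ⟨k, rfl⟩ := h
  have hsub : closedBall (t : ℂ) R ⊆ closedBall 0 r := by
    intro z hz
    rw [mem_closedBall, dist_eq_norm] at hz
    rw [mem_closedBall_zero_iff]
    have h1 : ‖z‖ ≤ ‖z - t‖ + ‖(t : ℂ)‖ := by simpa using norm_add_le (z - t) (t : ℂ)
    rw [Complex.norm_real, Real.norm_eq_abs, abs_of_nonneg ht0] at h1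
    linarith
  have hsubD : closedBall (t : ℂ) R ⊆ D := by
    intro z hz
    have := hsub hz
    rw [mem_closedBall_zero_iff] at this
    rw [mem_ball_zero_iff]; linarith
  set H : ℂ → ℂ := fun z => k.1 z * (((R : ℂ) ^ 2 - (a - t) * (z - t)) / R) ^ n with hH
  have hHd : DifferentiableOn ℂ H D := by
    refine (diff k).mul (DifferentiableOn.pow ?_ n)
    exact ((differentiableOn_const _).sub ((differentiableOn_id.sub_const _).const_mul _)).div_const _
  have hDC : DiffContOnCl ℂ H (ball (t : ℂ) R) := by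
    refine DifferentiableOn.diffContOnCl ?_
    rw [closure_ball _ hR0.ne']
    exact hHd.mono hsubD
  have hmax : ‖H t‖ ≤ B := by
    refine Complex.norm_le_of_forall_mem_frontier_norm_le isBounded_ball hDC ?_
      (subset_closure (mem_ball_self hR0))
    intro z hz
    rw [frontier_ball _ hR0.ne'] at hz
    have hz1 : ‖z - t‖ = R := by rwa [mem_sphere, dist_eq_norm] at hz
    have hzD : z ∈ D := hsubD (sphere_subset_closedBall hz)
    have hzr := hsub (sphere_subset_closedBall hz)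
    rw [mem_closedBall_zero_iff] at hzr
    have h2 := hB z hzr
    rw [mul_apply, pow_apply, lin_apply _ hzD] at h2
    have h3 : ‖((R : ℂ) ^ 2 - (a - t) * (z - t)) / R‖ = ‖z - a‖ := by
      have h4 : (R : ℂ) ^ 2 = (z - t) * (starRingEnd ℂ) (z - t) := by
        rw [Complex.mul_conj, Complex.normSq_eq_norm_sq, hz1]; push_cast; rfl
      have h5 : (R : ℂ) ^ 2 - (a - t) * (z - t) = (z - t) * (starRingEnd ℂ) (z - a) := by
        rw [h4]
        simp only [map_sub, Complex.conj_ofReal]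
        ring
      rw [h5, norm_div, norm_mul, RCLike.norm_conj, hz1, Complex.norm_real, Real.norm_eq_abs,
        abs_of_pos hR0]
      field_simp
    simp only [hH, norm_mul, norm_pow, h3]
    rw [norm_mul, norm_pow, mul_comm] at h2
    exact h2
  have htD : (t : ℂ) ∈ D := hsubD (mem_closedBall_self hR0.le)
  have hHt : H t = k.1 t * (R : ℂ) ^ n := by
    simp only [hH, sub_self, mul_zero, sub_zero]
    rw [pow_two, mul_div_assoc, div_self (by exact_mod_cast hR0.ne'), mul_one]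
  rw [mul_apply, pow_apply, lin_apply _ htD, norm_mul, norm_pow]
  have h6 : ‖((t : ℝ) : ℂ) - a‖ = a - t := by
    rw [← Complex.ofReal_sub, Complex.norm_real, Real.norm_eq_abs, abs_sub_comm,
      abs_of_pos (by linarith)]
  rw [h6]
  have h7 : ‖k.1 t‖ * R ^ n ≤ B := by
    rw [hHt, norm_mul, norm_pow, Complex.norm_real, Real.norm_eq_abs, abs_of_pos hR0] at hmax
    exact hmax
  have hB0 : 0 ≤ B := le_trans (by positivity) h7
  have h8 : (a - t) ^ n * ‖k.1 t‖ = ((a - t) / R) ^ n * (‖k.1 t‖ * R ^ n) := by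
    rw [div_pow]; field_simp
  rw [h8, mul_comm B]
  have h9 : (a - t) / R ≤ a / r := by
    rw [div_le_div_iff₀ hR0 (by linarith)]
    rw [hR]; nlinarith
  have h10 : 0 ≤ (a - t) / R := div_nonneg (by linarith) hR0.le
  gcongr

/-- the points -/
noncomputable def pt (k : ℕ) : ℝ := 1 - 2 / (2 * k + 3)

theorem pt_pos (k : ℕ) : 0 < pt k := by
  unfold pt
  have : 2 / (2 * (k:ℝ) + 3) < 1 := by
    rw [div_lt_one (by positivity)]; linarith [Nat.cast_nonneg (α := ℝ) k]
  linarith

theorem pt_third (k : ℕ) : 1/3 ≤ pt k := by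
  unfold pt
  have : 2 / (2 * (k:ℝ) + 3) ≤ 2/3 := by
    gcongr; linarith [Nat.cast_nonneg (α := ℝ) k]
  linarith

theorem pt_lt_one (k : ℕ) : pt k < 1 := by
  unfold pt
  have : 0 < 2 / (2 * (k:ℝ) + 3) := by positivity
  linarith

theorem pt_mono : StrictMono pt := by
  intro a b hab
  unfold pt
  have : (a:ℝ) < b := by exact_mod_cast hab
  have : 2 / (2 * (b:ℝ) + 3) < 2 / (2 * (a:ℝ) + 3) := by gcongr
  linarith

theorem pt_lim : Tendsto pt atTop (𝓝 1) := by
  unfold pt
  have h1 : Tendsto (fun k : ℕ => 2 * (k:ℝ) + 3) atTop atTop :=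
    tendsto_atTop_add_const_right _ _ (tendsto_natCast_atTop_atTop.const_mul_atTop (by norm_num))
  have h2 := (h1.const_div_atTop 2).const_sub 1
  simpa using h2

theorem pt_mem (k : ℕ) : ((pt k : ℝ) : ℂ) ∈ D := by
  rw [mem_ball_zero_iff, Complex.norm_real, Real.norm_eq_abs, abs_of_pos (pt_pos k)]
  exact pt_lt_one k

theorem one_sub_ne {z : ℂ} (hz : z ∈ D) : (1:ℂ) - z ≠ 0 := by
  intro h
  have : z = 1 := by linear_combination -h
  rw [this] at hz
  simp at hz

/-- a function with zeros exactly at the points -/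
noncomputable def s₀ : HD := mk (fun z => Complex.cos (Real.pi / (1 - z)))
  (((differentiableOn_const _).div ((differentiableOn_const _).sub differentiableOn_id)
    fun _ hz => one_sub_ne hz).ccos)

theorem s₀_zero {z : ℂ} (hz : z ∈ D) : s₀.1 z = 0 ↔ ∃ k : ℕ, z = (pt k : ℝ) := by
  rw [s₀, mk_apply hz, Complex.cos_eq_zero_iff]
  have hpi : (Real.pi : ℂ) ≠ 0 := by exact_mod_cast Real.pi_ne_zero
  constructor
  · rintro ⟨n, hn⟩
    have h1 := one_sub_ne hz
    have h2 : (2:ℂ) = (2 * n + 1) * (1 - z) := by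
      rw [div_eq_iff h1] at hn
      have : (Real.pi : ℂ) * 2 = Real.pi * ((2 * n + 1) * (1 - z)) := by linear_combination 2 * hn
      exact mul_left_cancel₀ hpi this
    have h3 : ((2 * n + 1 : ℤ) : ℂ) ≠ 0 := by
      have : (2 * n + 1 : ℤ) ≠ 0 := by omega
      exact_mod_cast this
    have h4 : z = ((1 - 2 / ((2 * n + 1 : ℤ) : ℝ) : ℝ) : ℂ) := by
      have h5 : (1 - z) = 2 / ((2 * n + 1 : ℤ) : ℂ) := by
        rw [eq_div_iff h3]; push_cast; rw [mul_comm]; exact h2.symm
      have : z = 1 - (1 - z) := by ring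
      rw [this, h5]; push_cast; rfl
    have hz1 : |1 - 2 / ((2 * n + 1 : ℤ) : ℝ)| < 1 := by
      have := hz
      rw [h4, mem_ball_zero_iff, Complex.norm_real, Real.norm_eq_abs] at this
      exact this
    rw [abs_lt] at hz1
    have h6 : 0 < 2 / ((2 * n + 1 : ℤ) : ℝ) := by linarith [hz1.2]
    have h7 : (0:ℝ) < ((2 * n + 1 : ℤ) : ℝ) := by
      by_contra hcon
      have := div_nonpos_of_nonneg_of_nonpos (show (0:ℝ) ≤ 2 by norm_num) (not_lt.1 hcon)
      linarith
    have h8 : (1:ℝ) < ((2 * n + 1 : ℤ) : ℝ) := by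
      have : 2 / ((2 * n + 1 : ℤ) : ℝ) < 2 := by linarith [hz1.1]
      rw [div_lt_iff₀ h7] at this
      linarith
    have h9 : 1 < 2 * n + 1 := by exact_mod_cast h8
    obtain ⟨k, hk⟩ := Int.eq_ofNat_of_zero_le (show 0 ≤ n - 1 by omega)
    refine ⟨k, ?_⟩
    rw [h4, pt]
    have : ((2 * n + 1 : ℤ) : ℝ) = 2 * (k:ℝ) + 3 := by
      have : (2 * n + 1 : ℤ) = 2 * (k:ℤ) + 3 := by omega
      rw [this]; push_cast; rfl
    rw [this]
  · rintro ⟨k, rfl⟩
    refine ⟨k + 1, ?_⟩
    rw [pt]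
    push_cast
    have h1 : (2 * (k:ℂ) + 3) ≠ 0 := by
      have : (2 * (k:ℝ) + 3) ≠ 0 := by positivity
      exact_mod_cast this
    have h2 : (1:ℂ) - (1 - 2 / (2 * k + 3)) = 2 / (2 * k + 3) := by ring
    rw [h2]
    field_simp
    ring

/-- the dominating sequence -/
noncomputable def dom (k : ℕ) : ℝ :=
  2 * Real.exp (Real.pi * Real.exp ((2 * k + 3) ^ 2)) + k + 1

theorem dom_spec (M : ℝ) (hM : 0 ≤ M) (k : ℕ) (hk : M ≤ k) (x : ℝ) (hx0 : 0 ≤ x)
    (hx : x ≤ 2 * k + 3) : 2 * Real.exp (Real.pi * Real.exp (M * x)) + k < dom k := by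
  unfold dom
  have h1 : M * x ≤ (2 * k + 3) ^ 2 := by nlinarith
  have h2 : Real.exp (Real.pi * Real.exp (M * x)) ≤
      Real.exp (Real.pi * Real.exp ((2 * k + 3) ^ 2)) := by
    gcongr
  linarith

/-- the coded set -/
def CodeX (s L F Y x : HD) : Prop :=
  G2 x ∧ ∀ x', G2 x' → ∃ p, Irreducible p ∧ p ∣ s ∧ (∃ u, ¬ p ∣ u ∧ L ∣ u * (x - F)) ∧
    ¬ p ∣ (Y - x')

/-- the natural numbers -/
def NatP (x : HD) : Prop := ∀ s L F Y : HD, CodeX s L F Y 0 →
  (∀ y, CodeX s L F Y y → CodeX s L F Y (y + 1)) → CodeX s L F Y x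

theorem G2_natCast (n : ℕ) : G2 (n : HD) := by
  refine G2_of_bounded (R := n) fun z _ => ?_
  rw [natCast_apply]; simp

theorem G2_pol (p : ℂ[X]) : G2 (pol p) := by
  obtain ⟨B, hB⟩ := (isCompact_closedBall (0:ℂ) 1).exists_bound_of_continuousOn
    (f := fun z => p.eval z) p.continuous.continuousOn
  refine G2_of_bounded (R := B) fun z hz => ?_
  rw [pol_apply _ hz]
  exact hB z (ball_subset_closedBall hz)

theorem code_exists : ∃ s L F Y : HD, ∀ x : HD, CodeX s L F Y x ↔ ∃ n : ℕ, x = n := by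
  -- the multiplicities
  have hn : ∀ k : ℕ, ∃ n : ℕ, dom k * (pt k / ((1 + pt k) / 2)) ^ n < 1 / (k + 1) := by
    intro k
    have h1 : pt k / ((1 + pt k) / 2) < 1 := by
      have := pt_pos k
      have := pt_lt_one k
      rw [div_lt_one (by linarith)]; linarith
    have h0 : 0 < dom k := by unfold dom; positivity
    have h2 : 0 < 1 / ((k:ℝ) + 1) / dom k := by positivity
    obtain ⟨n, hn⟩ := exists_pow_lt_of_lt_one h2 h1
    refine ⟨n, ?_⟩
    rw [lt_div_iff₀ h0, mul_comm] at hn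
    exact hn
  choose n hn using hn
  set c : ℕ → ℕ := fun k => (Nat.unpair k).1 with hc
  obtain ⟨L, hL⟩ := interp pt pt_mono pt_pos pt_lt_one pt_lim
    (fun k => (X - C ((pt k : ℝ) : ℂ)) ^ n k) (fun k => n k + 1)
  obtain ⟨F, hF⟩ := interp pt pt_mono pt_pos pt_lt_one pt_lim
    (fun k => C (c k : ℂ)) n
  obtain ⟨Y, hY⟩ := interp pt pt_mono pt_pos pt_lt_one pt_lim
    (fun k => C (dom k : ℂ)) (fun _ => 1)
  have hYv : ∀ k, Y.1 (pt k) = dom k := by
    intro k
    have := hY k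
    rw [pow_one, lin_dvd (pt_mem k), sub_apply, pol_apply _ (pt_mem k), eval_C, sub_eq_zero] at this
    exact this
  have hF' : ∀ k, lin (pt k) ^ n k ∣ F - (c k : HD) := by
    intro k
    have := hF k
    have h1 : pol (C (c k : ℂ)) = (c k : HD) := by
      apply ext'; intro z hz
      rw [pol_apply _ hz, eval_C, natCast_apply]
    rwa [h1] at this
  have hL' : ∀ k, ∃ u : HD, L = lin (pt k) ^ n k * u ∧ u.1 (pt k) ≠ 0 := by
    intro k
    obtain ⟨v, hv⟩ := hL k
    have h1 : pol ((X - C ((pt k : ℝ) : ℂ)) ^ n k) = lin (pt k) ^ n k := by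
      apply ext'; intro z hz
      rw [pol_apply _ hz, pow_apply, lin_apply _ hz]; simp
    rw [h1] at hv
    refine ⟨1 + lin (pt k) * v, ?_, ?_⟩
    · have : L = lin (pt k) ^ n k + lin (pt k) ^ (n k + 1) * v := by rw [← hv]; ring
      rw [this]; ring
    · rw [add_apply, mul_apply, lin_apply _ (pt_mem k), one_apply]; simp
  -- local divisibility
  have hloc : ∀ k (x : HD), (∃ u, ¬ lin (pt k) ∣ u ∧ L ∣ u * (x - F)) ↔
      lin (pt k) ^ n k ∣ x - (c k : HD) := by
    intro k x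
    have h1 : lin (pt k) ^ n k ∣ x - (c k : HD) ↔ lin (pt k) ^ n k ∣ x - F := by
      have : x - (c k : HD) = (x - F) + (F - (c k : HD)) := by ring
      rw [this]
      exact (dvd_add_left (hF' k))
    rw [h1]
    obtain ⟨u₀, hu₀, hu₀'⟩ := hL' k
    constructor
    · rintro ⟨u, hu, hLu⟩
      rw [lin_dvd (pt_mem k)] at hu
      refine pow_lin_dvd_mul (pt_mem k) hu (n k) (Dvd.dvd.trans ?_ hLu)
      rw [hu₀]; exact Dvd.intro _ rfl
    · rintro ⟨h, hh⟩
      refine ⟨u₀, by rwa [lin_dvd (pt_mem k)], h, ?_⟩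
      rw [hh, hu₀]; ring
  have hcode : ∀ x : HD, CodeX s₀ L F Y x ↔ (G2 x ∧ ∀ x' : HD, G2 x' → ∃ k : ℕ,
      lin (pt k) ^ n k ∣ x - (c k : HD) ∧ x'.1 (pt k) ≠ dom k) := by
    intro x
    unfold CodeX
    refine and_congr Iff.rfl (forall₂_congr fun x' _ => ?_)
    constructor
    · rintro ⟨p, hp, hps, hu, hpY⟩
      obtain ⟨a, ha, has⟩ := (irreducible_iff p).1 hp
      have h1 : lin a ∣ s₀ := has.dvd.trans hps
      rw [lin_dvd ha, s₀_zero ha] at h1
      obtain ⟨k, rfl⟩ := h1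
      refine ⟨k, (hloc k x).1 ?_, ?_⟩
      · obtain ⟨u, hu1, hu2⟩ := hu
        exact ⟨u, fun h => hu1 (has.symm.dvd.trans h), hu2⟩
      · intro h
        apply hpY
        refine has.symm.dvd.trans ?_
        rw [lin_dvd (pt_mem k), sub_apply, hYv, h, sub_self]
    · rintro ⟨k, hk, hk'⟩
      refine ⟨lin (pt k), irreducible_lin (pt_mem k), ?_, (hloc k x).2 hk, ?_⟩
      · rw [lin_dvd (pt_mem k), s₀_zero (pt_mem k)]; exact ⟨k, rfl⟩
      · rw [lin_dvd (pt_mem k), sub_apply, hYv, sub_eq_zero]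
        exact fun h => hk' h.symm
  refine ⟨s₀, L, F, Y, fun x => ?_⟩
  rw [hcode]
  constructor
  · rintro ⟨hx, hx'⟩
    obtain ⟨M, hM0, hM⟩ := hx.growth
    -- infinitely many points
    have hinf : ∀ K : ℕ, ∃ k, K ≤ k ∧ lin (pt k) ^ n k ∣ x - (c k : HD) := by
      intro K
      set q : ℂ[X] := Lagrange.interpolate (Finset.range K) (fun k => ((pt k : ℝ) : ℂ))
        (fun k => (dom k : ℂ)) with hq
      obtain ⟨k, hk, hk'⟩ := hx' (pol q) (G2_pol q)
      refine ⟨k, ?_, hk⟩
      by_contra hcon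
      apply hk'
      rw [pol_apply _ (pt_mem k), hq]
      have hinj : Set.InjOn (fun k : ℕ => ((pt k : ℝ) : ℂ)) (Finset.range K) := by
        intro i _ j _ hij
        exact pt_mono.injective (Complex.ofReal_injective hij)
      exact Lagrange.eval_interpolate_at_node (fun k => (dom k : ℂ)) hinj
        (Finset.mem_range.2 (not_le.1 hcon))
    have hest : ∀ k : ℕ, M ≤ k → lin (pt k) ^ n k ∣ x - (c k : HD) → ∀ t : ℝ, 0 ≤ t → t ≤ 1/4 →
        ‖x.1 t - c k‖ < 1 / (k + 1) := by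
      intro k hkM hk t ht0 ht1
      have hpk := pt_third k
      refine lt_of_le_of_lt ?_ (hn k)
      have := blaschke (x - (c k : HD)) (pt k) (pt_pos k) (pt_lt_one k) (n k) hk (dom k) ?_ t ht0
        (by linarith)
      · rwa [sub_apply, natCast_apply] at this
      · intro z hz
        have hz1 : ‖z‖ < 1 := by linarith [pt_lt_one k]
        have hzD : z ∈ D := by rwa [mem_ball_zero_iff]
        rw [sub_apply, natCast_apply]
        refine (norm_sub_le _ _).trans ?_
        have h1 := hM z hzD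
        have h2 : ‖(c k : ℂ)‖ ≤ k := by
          rw [Complex.norm_natCast]
          exact_mod_cast Nat.unpair_left_le k
        have h3 : 1 / (1 - ‖z‖) ≤ 2 * k + 3 := by
          have h4 : 1 / (2 * (k:ℝ) + 3) ≤ 1 - ‖z‖ := by
            have : pt k = 1 - 2 * (1 / (2 * (k:ℝ) + 3)) := by unfold pt; ring
            linarith
          rw [div_le_iff₀ (by linarith)]
          rw [div_le_iff₀ (by positivity)] at h4
          linarith
        have h5 := dom_spec M hM0 k hkM (1 / (1 - ‖z‖))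
          (div_nonneg zero_le_one (by linarith)) h3
        rw [mul_one_div] at h5
        linarith
    -- the limit
    obtain ⟨K₀, hK₀⟩ := exists_nat_ge M
    have hconst : ∀ t : ℝ, 0 ≤ t → t ≤ 1/4 → x.1 t = x.1 0 := by
      intro t ht0 ht1
      by_contra hne
      have hpos : 0 < ‖x.1 t - x.1 0‖ := norm_pos_iff.2 (sub_ne_zero.2 hne)
      obtain ⟨K₁, hK₁⟩ := exists_nat_gt (2 / ‖x.1 t - x.1 0‖)
      obtain ⟨k, hkK, hk⟩ := hinf (max K₀ K₁)
      have hkM : M ≤ k := hK₀.trans (by exact_mod_cast (le_max_left _ _).trans hkK)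
      have h1 := hest k hkM hk t ht0 ht1
      have h2 := hest k hkM hk 0 le_rfl (by norm_num)
      rw [Complex.ofReal_zero] at h2
      have h3 : ‖x.1 t - x.1 0‖ ≤ ‖x.1 t - c k‖ + ‖x.1 0 - c k‖ := by
        have : x.1 t - x.1 0 = (x.1 t - c k) - (x.1 0 - c k) := by ring
        rw [this]; exact norm_sub_le _ _
      have h4 : ‖x.1 t - x.1 0‖ < 2 / (k + 1) := by
        have : (2:ℝ) / (k + 1) = 1 / (k + 1) + 1 / (k + 1) := by ring
        rw [this]; linarith
      have h5 : (K₁:ℝ) ≤ k := by exact_mod_cast (le_max_right _ _).trans hkK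
      rw [lt_div_iff₀ (by positivity)] at h4
      rw [div_lt_iff₀ hpos] at hK₁
      nlinarith
    obtain ⟨k₁, hk₁K, hk₁⟩ := hinf (max K₀ 1)
    have hk₁M : M ≤ k₁ := hK₀.trans (by exact_mod_cast (le_max_left _ _).trans hk₁K)
    have hk₁1 : (1:ℝ) ≤ k₁ := by exact_mod_cast (le_max_right _ _).trans hk₁K
    have hval : x.1 0 = c k₁ := by
      by_contra hne
      have hpos : 0 < ‖x.1 0 - c k₁‖ := norm_pos_iff.2 (sub_ne_zero.2 hne)
      obtain ⟨K₂, hK₂⟩ := exists_nat_gt (1 / ‖x.1 0 - c k₁‖)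
      obtain ⟨k, hkK, hk⟩ := hinf (max (max K₀ 1) K₂)
      have hkM : M ≤ k := hK₀.trans
        (by exact_mod_cast (le_max_left K₀ 1).trans ((le_max_left _ _).trans hkK))
      have hk1 : (1:ℝ) ≤ k := by
        exact_mod_cast (le_max_right K₀ 1).trans ((le_max_left _ _).trans hkK)
      have h1 := hest k hkM hk 0 le_rfl (by norm_num)
      have h2 := hest k₁ hk₁M hk₁ 0 le_rfl (by norm_num)
      rw [Complex.ofReal_zero] at h1 h2
      have h3 : ‖(c k : ℂ) - c k₁‖ < 1 := by
        have e : (c k : ℂ) - c k₁ = (x.1 0 - c k₁) - (x.1 0 - c k) := by ring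
        rw [e]
        refine lt_of_le_of_lt (norm_sub_le _ _) ?_
        have h4 : 1 / ((k:ℝ) + 1) ≤ 1/2 := by
          rw [div_le_div_iff₀ (by positivity) (by norm_num)]; linarith
        have h5 : 1 / ((k₁:ℝ) + 1) ≤ 1/2 := by
          rw [div_le_div_iff₀ (by positivity) (by norm_num)]; linarith
        linarith
      have h6 : c k = c k₁ := by
        have h7 : ‖(((c k : ℤ) - (c k₁ : ℤ) : ℤ) : ℂ)‖ < 1 := by push_cast; exact h3
        rw [Complex.norm_intCast] at h7
        have h8 : |(c k : ℤ) - (c k₁ : ℤ)| < 1 := by exact_mod_cast h7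
        rw [Int.abs_lt_one_iff] at h8
        omega
      rw [h6] at h1
      have h9 : (K₂:ℝ) ≤ k := by exact_mod_cast (le_max_right _ _).trans hkK
      rw [lt_div_iff₀ (by positivity)] at h1
      rw [div_lt_iff₀ hpos] at hK₂
      nlinarith
    refine ⟨c k₁, ?_⟩
    rw [natCast_eq]
    exact eq_const_of_segment x _ fun t ht0 ht1 => (hconst t ht0 ht1).trans hval
  · rintro ⟨m, rfl⟩
    refine ⟨G2_natCast m, fun x' hx' => ?_⟩
    obtain ⟨M, hM0, hM⟩ := hx'.growth
    obtain ⟨K, hK⟩ := exists_nat_ge M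
    refine ⟨Nat.pair m K, ?_, ?_⟩
    · have : c (Nat.pair m K) = m := by simp only [hc, Nat.unpair_pair]
      rw [this, sub_self]; exact dvd_zero _
    · intro h
      set k := Nat.pair m K with hk
      have hkM : M ≤ k := hK.trans (by exact_mod_cast Nat.right_le_pair m K)
      have h1 := hM _ (pt_mem k)
      have h0 : 0 < dom k := by unfold dom; positivity
      rw [h, Complex.norm_real, Real.norm_eq_abs, abs_of_pos h0, Complex.norm_real,
        Real.norm_eq_abs, abs_of_pos (pt_pos k)] at h1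
      have h2 : 1 / (1 - pt k) ≤ 2 * k + 3 := by
        have : 1 - pt k = 2 / (2 * k + 3) := by unfold pt; ring
        rw [this, one_div_div]
        have : 0 ≤ (2 * (k:ℝ) + 3) := by positivity
        linarith
      have h5 := dom_spec M hM0 k hkM (1 / (1 - pt k))
        (div_nonneg zero_le_one (by linarith [pt_lt_one k])) h2
      rw [mul_one_div] at h5
      have : (0:ℝ) ≤ k := Nat.cast_nonneg k
      linarith

theorem natP_iff (x : HD) : NatP x ↔ ∃ n : ℕ, x = n := by
  constructor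
  · intro h
    obtain ⟨s, L, F, Y, hc⟩ := code_exists
    refine (hc x).1 (h s L F Y ((hc 0).2 ⟨0, by simp⟩) fun y hy => (hc _).2 ?_)
    obtain ⟨n, rfl⟩ := (hc y).1 hy
    exact ⟨n + 1, by push_cast; rfl⟩
  · rintro ⟨n, rfl⟩ s L F Y h0 hs
    induction n with
    | zero => simpa using h0
    | succ n ih => rw [Nat.cast_succ]; exact hs _ ih

end Pool.Agent.R614.Hol
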