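import Pool.Agent.R614.HD.Code
set_option autoImplicit false

/-!
# Constants and the absolute value, definably
-/

open Metric Set Filter Topology

namespace Pool.Agent.R614.Hol

theorem cst_add (a b : ℂ) : cst (a + b) = cst a + cst b := by
  apply ext'; intro z _; simp only [cst_apply, add_apply]
theorem cst_sub (a b : ℂ) : cst (a - b) = cst a - cst b := by
  apply ext'; intro z _; simp only [cst_apply, sub_apply]
theorem cst_mul (a b : ℂ) : cst (a * b) = cst a * cst b := by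
  apply ext'; intro z _; simp only [cst_apply, mul_apply]
theorem cst_one : cst 1 = 1 := by
  apply ext'; intro z _; rw [cst_apply, one_apply]
theorem cst_zero : cst 0 = 0 := by
  apply ext'; intro z _; rw [cst_apply, zero_apply]

/-- constants are functions such that certain functions are zero or units -/
def CstP (x : HD) : Prop := ∀ n a b c d : HD, NatP n → NatP a → NatP b → NatP c → NatP d →
  ((n + 1) * x - (a - b)) ^ 2 + (c - d) ^ 2 = 0 ∨
    IsUnit (((n + 1) * x - (a - b)) ^ 2 + (c - d) ^ 2)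

theorem image_open {x : HD} (hx : ¬ ∃ c, x = cst c) : IsOpen (x.1 '' D) := by
  have hA : AnalyticOnNhd ℂ x.1 D := (diff x).analyticOnNhd isOpen_ball
  rcases hA.is_constant_or_isOpen (convex_ball (0:ℂ) 1).isPreconnected with h | h
  · obtain ⟨w, hw⟩ := h
    exact absurd ⟨w, ext' fun z hz => by rw [hw z hz, cst_apply]⟩ hx
  · exact h D Subset.rfl isOpen_ball

/-- rational points are dense -/
theorem rat_approx (x ε : ℝ) (hε : 0 < ε) (N : ℕ) (hN : 1 / ε ≤ N + 1) :
    ∃ a b : ℕ, |x - ((a:ℝ) - b) / (N + 1)| < ε := by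
  have hN0 : (0:ℝ) < N + 1 := by positivity
  set m : ℤ := round ((N + 1) * x) with hm
  have h1 : |(N + 1) * x - m| ≤ 1 / 2 := abs_sub_round _
  have h2 : ∃ a b : ℕ, ((a:ℤ) - b) = m := by
    rcases le_total 0 m with h | h
    · exact ⟨m.toNat, 0, by omega⟩
    · exact ⟨0, (-m).toNat, by omega⟩
  obtain ⟨a, b, hab⟩ := h2
  refine ⟨a, b, ?_⟩
  have h3 : (a:ℝ) - b = m := by exact_mod_cast hab
  rw [h3]
  have h4 : x - m / (N + 1) = ((N + 1) * x - m) / (N + 1) := by field_simp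
  rw [h4, abs_div, abs_of_pos hN0, div_lt_iff₀ hN0]
  rw [div_le_iff₀ hε] at hN
  nlinarith

theorem cstP_iff (x : HD) : CstP x ↔ ∃ c, x = cst c := by
  constructor
  · intro h
    by_contra hx
    have hop := image_open hx
    have h0 : x.1 0 ∈ x.1 '' D := ⟨0, zero_mem, rfl⟩
    obtain ⟨ε, hε, hball⟩ := Metric.isOpen_iff.1 hop _ h0
    obtain ⟨N, hN⟩ := exists_nat_ge (1 / (ε / 2))
    have hN' : 1 / (ε / 2) ≤ (N:ℝ) + 1 := by linarith
    obtain ⟨a, b, hab⟩ := rat_approx (x.1 0).re (ε/2) (by positivity) N hN'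
    obtain ⟨c, d, hcd⟩ := rat_approx (x.1 0).im (ε/2) (by positivity) N hN'
    set q : ℂ := (((a:ℂ) - b) + Complex.I * ((c:ℂ) - d)) / (N + 1) with hq
    have hN0 : (N:ℂ) + 1 ≠ 0 := Nat.cast_add_one_ne_zero N
    have hqb : q ∈ ball (x.1 0) ε := by
      rw [mem_ball, dist_comm, dist_eq_norm]
      have hq' : q = ((((a:ℝ) - b) / (N + 1) : ℝ) : ℂ) +
          Complex.I * ((((c:ℝ) - d) / (N + 1) : ℝ) : ℂ) := by
        rw [hq]; push_cast; ring
      have h1 := Complex.norm_le_abs_re_add_abs_im (x.1 0 - q)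
      have h2 : (x.1 0 - q).re = (x.1 0).re - ((a:ℝ) - b) / (N + 1) := by
        rw [hq', Complex.sub_re, Complex.add_re, Complex.ofReal_re, Complex.mul_re,
          Complex.ofReal_re, Complex.ofReal_im]
        simp
      have h3 : (x.1 0 - q).im = (x.1 0).im - ((c:ℝ) - d) / (N + 1) := by
        rw [hq', Complex.sub_im, Complex.add_im, Complex.ofReal_im, Complex.mul_im,
          Complex.ofReal_re, Complex.ofReal_im]
        simp
      rw [h2, h3] at h1
      linarith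
    obtain ⟨w, hw, hwq⟩ := hball hqb
    set y : HD := (((N:HD) + 1) * x - ((a:HD) - b)) ^ 2 + ((c:HD) - d) ^ 2 with hy
    have hyv : ∀ z, y.1 z = ((N + 1) * x.1 z - (a - b)) ^ 2 + ((c:ℂ) - d) ^ 2 := by
      intro z
      simp only [hy, add_apply, sub_apply, mul_apply, pow_apply, natCast_apply, one_apply]
    have hfact : ∀ z, y.1 z = ((N + 1) * x.1 z - (a - b) - Complex.I * (c - d)) *
        ((N + 1) * x.1 z - (a - b) + Complex.I * (c - d)) := by
      intro z
      rw [hyv]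
      linear_combination (c - d : ℂ) ^ 2 * Complex.I_sq
    rcases h (N:HD) a b c d ((natP_iff _).2 ⟨N, rfl⟩) ((natP_iff _).2 ⟨a, rfl⟩)
      ((natP_iff _).2 ⟨b, rfl⟩) ((natP_iff _).2 ⟨c, rfl⟩) ((natP_iff _).2 ⟨d, rfl⟩) with h1 | h1
    · rw [← hy] at h1
      have hinf : (x.1 '' D).Infinite := infinite_of_mem_nhds _ (hop.mem_nhds h0)
      apply hinf
      refine Set.Finite.subset (s := {((a - b) + Complex.I * (c - d)) / (N + 1),
        ((a - b) - Complex.I * (c - d)) / (N + 1)}) (by simp) ?_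
      rintro _ ⟨z, hz, rfl⟩
      have h2 : y.1 z = 0 := by rw [h1]; rfl
      rw [hfact] at h2
      rcases mul_eq_zero.1 h2 with h3 | h3
      · left; rw [eq_div_iff hN0]; linear_combination h3
      · right; rw [mem_singleton_iff, eq_div_iff hN0]; linear_combination h3
    · rw [← hy] at h1
      refine (isUnit_iff _).1 h1 w hw ?_
      rw [hfact, hwq]
      have : ((N:ℂ) + 1) * q = (((a:ℂ) - b) + Complex.I * ((c:ℂ) - d)) := by
        rw [hq]; field_simp
      rw [this]; ring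
  · rintro ⟨c', rfl⟩ n a b c d hn ha hb hc hd
    obtain ⟨n, rfl⟩ := (natP_iff _).1 hn
    obtain ⟨a, rfl⟩ := (natP_iff _).1 ha
    obtain ⟨b, rfl⟩ := (natP_iff _).1 hb
    obtain ⟨c, rfl⟩ := (natP_iff _).1 hc
    obtain ⟨d, rfl⟩ := (natP_iff _).1 hd
    have h1 : (((n:HD) + 1) * cst c' - ((a:HD) - b)) ^ 2 + ((c:HD) - d) ^ 2 =
        cst (((n + 1) * c' - (a - b)) ^ 2 + (c - d) ^ 2) := by
      apply ext'; intro z _
      simp only [add_apply, sub_apply, mul_apply, pow_apply, natCast_apply, one_apply, cst_apply]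
    rw [h1]
    by_cases h2 : ((n + 1) * c' - (a - b)) ^ 2 + ((c:ℂ) - d) ^ 2 = 0
    · left; rw [h2, cst_zero]
    · right; rw [isUnit_iff]; intro z _; rwa [cst_apply]

theorem not_isUnit_sub_cst (z : HD) (c : ℂ) : ¬ IsUnit (z - cst c) ↔ c ∈ z.1 '' D := by
  rw [not_isUnit_iff]
  constructor
  · rintro ⟨w, hw, h⟩
    rw [sub_apply, cst_apply, sub_eq_zero] at h
    exact ⟨w, hw, h⟩
  · rintro ⟨w, hw, h⟩
    exact ⟨w, hw, by rw [sub_apply, cst_apply, h, sub_self]⟩

/-- `z` is a function whose image is the unit disc -/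
def DiscP (z : HD) : Prop := z ≠ 0 ∧ ¬ IsUnit z ∧ IsUnit (z - 1) ∧
  (∀ a b, CstP a → CstP b → ¬ IsUnit (z - a) → ¬ IsUnit (z - b) → ¬ IsUnit (z - a * b)) ∧
  (∀ a b c, CstP a → CstP b → CstP c → ¬ IsUnit (z - a) → IsUnit (z - b) → c * b = a →
    ¬ IsUnit (z - c))

theorem discP_image {z : HD} (h : DiscP z) : z.1 '' D = D := by
  obtain ⟨hz0, hz1, hz2, hmul, hdiv⟩ := h
  set U : Set ℂ := z.1 '' D with hU
  have h0 : (0:ℂ) ∈ U := by
    rw [← not_isUnit_sub_cst, cst_zero, sub_zero]; exact hz1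
  have h1 : (1:ℂ) ∉ U := by
    rw [← not_isUnit_sub_cst, cst_one, not_not]; exact hz2
  have hmul' : ∀ a b, a ∈ U → b ∈ U → a * b ∈ U := by
    intro a b ha hb
    rw [← not_isUnit_sub_cst] at ha hb ⊢
    rw [cst_mul]
    exact hmul _ _ ((cstP_iff _).2 ⟨a, rfl⟩) ((cstP_iff _).2 ⟨b, rfl⟩) ha hb
  have hdiv' : ∀ b c, c * b ∈ U → b ∉ U → c ∈ U := by
    intro b c ha hb
    rw [← not_isUnit_sub_cst] at ha hb ⊢
    exact hdiv _ _ _ ((cstP_iff _).2 ⟨c * b, rfl⟩) ((cstP_iff _).2 ⟨b, rfl⟩)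
      ((cstP_iff _).2 ⟨c, rfl⟩) ha (not_not.1 hb) (cst_mul c b).symm
  have hop : IsOpen U := by
    apply image_open
    rintro ⟨c, rfl⟩
    obtain ⟨w, _, hw⟩ := h0
    rw [cst_apply] at hw
    exact hz0 (by rw [hw, cst_zero])
  obtain ⟨ε, hε, hball⟩ := Metric.isOpen_iff.1 hop 0 h0
  -- the disc is contained in `U`
  have hsub : D ⊆ U := by
    intro b hb
    by_contra hbU
    have hb1 : ‖b‖ < 1 := by simpa using hb
    obtain ⟨k, hk⟩ := exists_pow_lt_of_lt_one hε hb1
    have h2 : b ^ k ∈ U := hball (by rw [mem_ball_zero_iff, norm_pow]; exact hk)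
    have h3 : ∀ j : ℕ, b ^ j ∈ U → (1:ℂ) ∈ U := by
      intro j
      induction j with
      | zero => intro h; simpa using h
      | succ j ih =>
        intro h
        rw [pow_succ] at h
        exact ih (hdiv' b (b ^ j) h hbU)
    exact h1 (h3 k h2)
  have hbig : ∀ a ∈ U, ‖a‖ ≤ 1 := by
    intro a ha
    by_contra hcon
    push Not at hcon
    have ha0 : a ≠ 0 := by rintro rfl; simp at hcon; linarith
    have h2 : a⁻¹ ∈ U := hsub (by rw [mem_ball_zero_iff, norm_inv]; exact inv_lt_one_of_one_lt₀ hcon)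
    have := hmul' a a⁻¹ ha h2
    rw [mul_inv_cancel₀ ha0] at this
    exact h1 this
  refine Subset.antisymm ?_ hsub
  have h4 : U ⊆ closedBall (0:ℂ) 1 := fun a ha => by simpa using hbig a ha
  have h5 := interior_maximal h4 hop
  rwa [interior_closedBall _ one_ne_zero] at h5

theorem discP_lin : DiscP (lin 0) := by
  have himg : (lin 0).1 '' D = D := by
    apply Subset.antisymm
    · rintro _ ⟨w, hw, rfl⟩
      rw [lin_apply _ hw, sub_zero]; exact hw
    · intro w hw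
      exact ⟨w, hw, by rw [lin_apply _ hw, sub_zero]⟩
  have hmem : ∀ a, ¬ IsUnit (lin 0 - cst a) ↔ ‖a‖ < 1 := by
    intro a; rw [not_isUnit_sub_cst, himg, mem_ball_zero_iff]
  refine ⟨?_, not_isUnit_lin zero_mem, ?_, ?_, ?_⟩
  · intro h
    have hw : (1/2 : ℂ) ∈ D := by rw [mem_ball_zero_iff]; norm_num
    have := lin_apply 0 hw
    rw [h, zero_apply] at this
    norm_num at this
  · rw [← cst_one, ← not_not (a := IsUnit _), hmem]; simp
  · intro a b ha hb h1 h2
    obtain ⟨a, rfl⟩ := (cstP_iff _).1 ha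
    obtain ⟨b, rfl⟩ := (cstP_iff _).1 hb
    rw [← cst_mul, hmem, norm_mul]
    rw [hmem] at h1 h2
    nlinarith [norm_nonneg a, norm_nonneg b]
  · intro a b c ha hb hc h1 h2 h3
    obtain ⟨a, rfl⟩ := (cstP_iff _).1 ha
    obtain ⟨b, rfl⟩ := (cstP_iff _).1 hb
    obtain ⟨c, rfl⟩ := (cstP_iff _).1 hc
    rw [← cst_mul] at h3
    have h4 := cst_inj h3
    rw [← not_not (a := IsUnit _), hmem] at h2
    rw [hmem] at h1 ⊢
    push Not at h2
    rw [← h4, norm_mul] at h1
    nlinarith [norm_nonneg c]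

/-- comparison of absolute values -/
def LtP (z a b : HD) : Prop := ∃ q, CstP q ∧ a = q * b ∧ b ≠ 0 ∧ ¬ IsUnit (z - q)

theorem ltP_iff {z : HD} (hz : DiscP z) (a b : ℂ) : LtP z (cst a) (cst b) ↔ ‖a‖ < ‖b‖ := by
  have hmem : ∀ a, ¬ IsUnit (z - cst a) ↔ ‖a‖ < 1 := by
    intro a; rw [not_isUnit_sub_cst, discP_image hz, mem_ball_zero_iff]
  constructor
  · rintro ⟨q, hq, hab, hb, hu⟩
    obtain ⟨q, rfl⟩ := (cstP_iff _).1 hq
    rw [← cst_mul] at hab
    have h1 := cst_inj hab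
    have hb' : b ≠ 0 := by rintro rfl; exact hb cst_zero
    rw [hmem] at hu
    rw [h1, norm_mul]
    have := norm_pos_iff.2 hb'
    nlinarith
  · intro h
    have hb : 0 < ‖b‖ := lt_of_le_of_lt (norm_nonneg a) h
    have hb0 : b ≠ 0 := norm_pos_iff.1 hb
    refine ⟨cst (a / b), (cstP_iff _).2 ⟨_, rfl⟩, ?_, ?_, ?_⟩
    · rw [← cst_mul, div_mul_cancel₀ _ hb0]
    · intro h0
      rw [← cst_zero] at h0
      exact hb0 (cst_inj h0)
    · rw [hmem, norm_div, div_lt_one hb]; exact h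

end Pool.Agent.R614.Hol
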