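import Pool.Agent.R614.HD.Fml
set_option autoImplicit false

/-!
# Functions with small characteristic are definable
-/

open Metric Set Filter Topology

namespace Pool.Agent.R614.Hol

theorem VP_iff {z E : HD} {j : ℕ} {w : ℂ} (hw : w ∈ D) (hz : z.1 w = j / (j + 1)) {a a' : HD}
    (h : VP z E j a) (h' : VP z E j a') : a.1 w = a'.1 w := by
  have h1 : (((j:HD) + 1) * z - j) ∣ (a' - a) := by
    have : a' - a = (E - a) - (E - a') := by ring
    rw [this]; exact dvd_sub h h'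
  obtain ⟨k, hk⟩ := h1
  have h2 : (a' - a).1 w = 0 := by
    rw [hk, mul_apply, sub_apply, mul_apply, add_apply, natCast_apply, one_apply, hz]
    have : (j:ℂ) + 1 ≠ 0 := Nat.cast_add_one_ne_zero j
    field_simp
    ring
  rw [sub_apply, sub_eq_zero] at h2
  exact h2.symm

theorem div_mem (j : ℕ) : ((j:ℂ) / (j + 1)) ∈ D := by
  rw [mem_ball_zero_iff, norm_div, Complex.norm_natCast]
  have : ‖(j:ℂ) + 1‖ = j + 1 := by
    have : (j:ℂ) + 1 = ((j + 1 : ℕ) : ℂ) := by push_cast; rfl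
    rw [this, Complex.norm_natCast]; push_cast; rfl
  rw [this, div_lt_one (by positivity)]
  linarith

theorem eseq_val {z E : HD} (hz : DiscP z) (hE : ESeq z E) (j : ℕ) :
    VP z E j (cst (2 ^ (j + 1))) := by
  induction j with
  | zero =>
    have := hE.1
    have h2 : (2:HD) = cst (2 ^ (0 + 1)) := by
      apply ext'; intro w _
      rw [cst_apply, zero_add, pow_one, ← Nat.cast_ofNat, natCast_apply]; norm_num
    rw [h2] at this
    simpa using this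
  | succ j ih =>
    have := hE.2 j _ ((natP_iff _).2 ⟨j, rfl⟩) ((cstP_iff _).2 ⟨_, rfl⟩) ih
    have h2 : (2:HD) * cst (2 ^ (j + 1)) = cst (2 ^ (j + 1 + 1)) := by
      apply ext'; intro w _
      rw [mul_apply, cst_apply, cst_apply, ← Nat.cast_ofNat, natCast_apply, pow_succ (2:ℂ) (j+1)]
      push_cast; ring
    rw [h2] at this
    simpa using this

theorem VP_uniq {z E : HD} (hz : DiscP z) (hE : ESeq z E) (j : ℕ) {a : HD} (ha : CstP a)
    (h : VP z E j a) : a = cst (2 ^ (j + 1)) := by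
  obtain ⟨a, rfl⟩ := (cstP_iff _).1 ha
  have h1 : ((j:ℂ) / (j + 1)) ∈ z.1 '' D := by rw [discP_image hz]; exact div_mem j
  obtain ⟨w, hw, hwz⟩ := h1
  have h2 := VP_iff hw hwz h (eseq_val hz hE j)
  rw [cst_apply, cst_apply] at h2
  rw [h2]

/-- the semantic content of `Maj` -/
theorem maj_iff {z f G : HD} (hz : DiscP z) (k : ℕ) : Maj z f (cst (2 ^ (k + 1))) G ↔
    IsUnit G ∧ ∀ w ∈ D, ‖z.1 w‖ < 1 - (1/2 : ℝ) ^ (k + 1) → 1 ≤ ‖G.1 w‖ ∧ ‖f.1 w‖ ≤ ‖G.1 w‖ := by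
  have hK : (0:ℝ) < 2 ^ (k + 1) := by positivity
  have hlt : ∀ c : ℂ, LtP z (cst (2 ^ (k + 1)) * cst c) (cst (2 ^ (k + 1)) - 1) ↔
      ‖c‖ < 1 - (1/2 : ℝ) ^ (k + 1) := by
    intro c
    rw [← cst_mul, ← cst_one, ← cst_sub, ltP_iff hz, norm_mul, norm_pow, Complex.norm_ofNat]
    have h1 : ‖(2:ℂ) ^ (k + 1) - 1‖ = 2 ^ (k + 1) - 1 := by
      have : (2:ℂ) ^ (k + 1) - 1 = (((2:ℝ) ^ (k + 1) - 1 : ℝ) : ℂ) := by push_cast; rfl
      rw [this, Complex.norm_real, Real.norm_eq_abs, abs_of_nonneg]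
      have : (1:ℝ) ≤ 2 ^ (k + 1) := one_le_pow₀ (by norm_num)
      linarith
    rw [h1]
    have h2 : (1:ℝ) - (1/2 : ℝ) ^ (k + 1) = (2 ^ (k + 1) - 1) / 2 ^ (k + 1) := by
      rw [one_div, inv_pow]; field_simp
    rw [h2, lt_div_iff₀ hK, mul_comm]
  refine and_congr Iff.rfl ⟨fun h w hw hzw => ?_, fun h p c a b hp hc ha hb hpz hl hpa hpb => ?_⟩
  · have hd : ∀ g : HD, lin w ∣ g - cst (g.1 w) := by
      intro g
      rw [lin_dvd hw, sub_apply, cst_apply, sub_self]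
    obtain ⟨h1, h2⟩ := h (lin w) (cst (z.1 w)) (cst (G.1 w)) (cst (f.1 w)) (irreducible_lin hw)
      ((cstP_iff _).2 ⟨_, rfl⟩) ((cstP_iff _).2 ⟨_, rfl⟩) ((cstP_iff _).2 ⟨_, rfl⟩) (hd z)
      ((hlt _).2 hzw) (hd G) (hd f)
    rw [ltP_iff hz] at h1
    rw [← cst_one, ltP_iff hz, norm_one] at h2
    exact ⟨not_lt.1 h2, not_lt.1 h1⟩
  · obtain ⟨w, hw, hwp⟩ := (irreducible_iff p).1 hp
    obtain ⟨c, rfl⟩ := (cstP_iff _).1 hc
    obtain ⟨a, rfl⟩ := (cstP_iff _).1 ha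
    obtain ⟨b, rfl⟩ := (cstP_iff _).1 hb
    rw [← hwp.dvd_iff_dvd_left, lin_dvd hw, sub_apply, cst_apply, sub_eq_zero] at hpz hpa hpb
    rw [hlt, ← hpz] at hl
    obtain ⟨h1, h2⟩ := h w hw hl
    rw [← hpa, ← hpb]
    rw [ltP_iff hz, ← cst_one, ltP_iff hz, norm_one]
    exact ⟨not_lt.2 h2, not_lt.2 h1⟩

theorem maj_at {z B p₀ G : HD} (hz : DiscP z) {w₀ : ℂ} (hw₀ : w₀ ∈ D)
    (hp : Associated (lin w₀) p₀) (b : ℂ) (hB : B = cst b) :
    (∀ a, CstP a → p₀ ∣ G - a → ¬ LtP z B a) ↔ ‖G.1 w₀‖ ≤ ‖b‖ := by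
  subst hB
  constructor
  · intro h
    have h1 := h (cst (G.1 w₀)) ((cstP_iff _).2 ⟨_, rfl⟩) (by
      rw [← hp.dvd_iff_dvd_left, lin_dvd hw₀, sub_apply, cst_apply, sub_self])
    rw [ltP_iff hz] at h1
    exact not_lt.1 h1
  · intro h a ha hpa
    obtain ⟨a, rfl⟩ := (cstP_iff _).1 ha
    rw [← hp.dvd_iff_dvd_left, lin_dvd hw₀, sub_apply, cst_apply, sub_eq_zero] at hpa
    rw [ltP_iff hz, ← hpa]
    exact not_lt.2 h

theorem NA_imp (f : HD) (h : NA f) : ∃ C₁ C₂ ρ : ℝ, 0 ≤ C₁ ∧ 0 ≤ C₂ ∧ ρ < 1 ∧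
    ∀ r : ℝ, ρ < r → r < 1 → Tc f r ≤ C₁ + C₂ * Real.log (1 - r)⁻¹ := by
  obtain ⟨z, p₀, E, hz, hp₀, hp₀z, hE, M, hM, h⟩ := h
  obtain ⟨M, rfl⟩ := (natP_iff _).1 hM
  obtain ⟨w₀, hw₀, hwp⟩ := (irreducible_iff p₀).1 hp₀
  have hw1 : ‖w₀‖ < 1 := by simpa using hw₀
  have hzD : ∀ w ∈ D, ‖z.1 w‖ < 1 := by
    intro w hw
    have : z.1 w ∈ D := by rw [← discP_image hz]; exact ⟨w, hw, rfl⟩
    simpa using this
  set κ : ℝ := (1 - ‖z.1 0‖) / 4 with hκ
  have hκ0 : 0 < κ := by have := hzD 0 zero_mem; rw [hκ]; linarith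
  have hκ1 : κ ≤ 1 := by have := norm_nonneg (z.1 0); rw [hκ]; linarith
  have hpick : ∀ w ∈ D, κ * (1 - ‖w‖) ≤ 1 - ‖z.1 w‖ := by
    intro w hw
    have := pick z hzD hw
    rw [hκ]; nlinarith
  have hG : ∀ k : ℕ, ∃ G : HD, IsUnit G ∧ (∀ w ∈ D, ‖z.1 w‖ < 1 - (1/2 : ℝ) ^ (k + 1) →
      1 ≤ ‖G.1 w‖ ∧ ‖f.1 w‖ ≤ ‖G.1 w‖) ∧ ‖G.1 w₀‖ ≤ 2 ^ ((k + 1) * (M + 1)) := by
    intro k
    have h1 : VP z E ((k:HD) * M + k + M) (cst (2 ^ (k * M + k + M + 1))) := by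
      have := eseq_val hz hE (k * M + k + M)
      push_cast at this
      exact this
    obtain ⟨G, hG1, hG2⟩ := h k _ _ ((natP_iff _).2 ⟨k, rfl⟩) ((cstP_iff _).2 ⟨_, rfl⟩)
      ((cstP_iff _).2 ⟨_, rfl⟩) (eseq_val hz hE k) h1
    rw [maj_iff hz] at hG1
    rw [maj_at hz hw₀ hwp _ rfl] at hG2
    refine ⟨G, hG1.1, hG1.2, ?_⟩
    rw [norm_pow, Complex.norm_ofNat] at hG2
    have : k * M + k + M + 1 = (k + 1) * (M + 1) := by ring
    rwa [this] at hG2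
  -- the constants
  set ρ : ℝ := (1 + ‖w₀‖) / 2 with hρ
  have hρw : ‖w₀‖ < ρ := by rw [hρ]; linarith
  have hρ1 : ρ < 1 := by rw [hρ]; linarith
  have hρ0 : 0 < ρ := by rw [hρ]; positivity
  set δ : ℝ := 1 - (‖w₀‖ / ρ) ^ 2 with hδ
  have ht : ‖w₀‖ / ρ < 1 := (div_lt_one hρ0).2 hρw
  have hδ0 : 0 < δ := by
    have : 0 ≤ ‖w₀‖ / ρ := by positivity
    rw [hδ]; nlinarith
  have hl2 : 0 < Real.log 2 := Real.log_pos (by norm_num)
  refine ⟨4 / δ * ((M + 1) * (Real.log κ⁻¹ + Real.log 2) + 1), 4 / δ * (M + 1), ρ, ?_, by positivity,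
    hρ1, fun r hr hr1 => ?_⟩
  · have : 0 ≤ Real.log κ⁻¹ := Real.log_nonneg ((one_le_inv₀ hκ0).2 hκ1)
    positivity
  · have hr0 : 0 < r := hρ0.trans hr
    have h1r : 0 < 1 - r := by linarith
    obtain ⟨k, hk1, hk2⟩ := exists_nat_pow_near_of_lt_one (show 0 < κ * (1 - r) by positivity)
      (by nlinarith : κ * (1 - r) ≤ 1) (by norm_num : (0:ℝ) < 1/2) (by norm_num)
    obtain ⟨G, hG1, hG2, hG3⟩ := hG k
    have hG2' : ∀ w : ℂ, ‖w‖ ≤ r → 1 ≤ ‖G.1 w‖ ∧ ‖f.1 w‖ ≤ ‖G.1 w‖ := by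
      intro w hw
      have hwD : w ∈ D := by rw [mem_ball_zero_iff]; linarith
      refine hG2 w hwD ?_
      have h2 := hpick w hwD
      have h3 : κ * (1 - r) ≤ κ * (1 - ‖w‖) := by gcongr
      linarith
    have hT := Tc_le f G hG1 hr0 hr1 fun w hw => hG2' w hw.le
    have hH := harnack_unit G hG1 hr1.le (fun w hw => (hG2' w hw.le).1) (hρw.trans hr)
    have hlogG : Real.log ‖G.1 w₀‖ ≤ ((k + 1) * (M + 1)) * Real.log 2 := by
      have h2 : 0 < ‖G.1 w₀‖ := lt_of_lt_of_le one_pos (hG2' w₀ (hρw.trans hr).le).1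
      have h3 := Real.log_le_log h2 hG3
      rw [Real.log_pow] at h3
      push_cast at h3
      exact h3
    have hk3 : (k:ℝ) * Real.log 2 ≤ Real.log κ⁻¹ + Real.log (1 - r)⁻¹ := by
      have h2 := Real.log_le_log (by positivity) hk2
      rw [Real.log_pow, one_div, Real.log_inv, Real.log_mul hκ0.ne' h1r.ne'] at h2
      rw [Real.log_inv, Real.log_inv]
      linarith
    have hδr : δ ≤ 1 - (‖w₀‖ / r) ^ 2 := by
      rw [hδ]
      have : ‖w₀‖ / r ≤ ‖w₀‖ / ρ := by gcongr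
      have h2 : 0 ≤ ‖w₀‖ / r := by positivity
      have : (‖w₀‖ / r) ^ 2 ≤ (‖w₀‖ / ρ) ^ 2 := by gcongr
      linarith
    have hT0 := Tc_nonneg f r
    have h4 : δ * (Tc f r + 1) ≤ 4 * (((k + 1) * (M + 1)) * Real.log 2 + 1) := by
      calc δ * (Tc f r + 1) ≤ (1 - (‖w₀‖ / r) ^ 2) * (Real.log ‖G.1 0‖ + 1) := by
            have : 0 ≤ 1 - (‖w₀‖ / r) ^ 2 := hδ0.le.trans hδr
            gcongr
        _ ≤ 4 * (Real.log ‖G.1 w₀‖ + 1) := hH
        _ ≤ _ := by gcongr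
    have h5 : ((k:ℝ) + 1) * (M + 1) * Real.log 2 ≤
        (M + 1) * (Real.log κ⁻¹ + Real.log (1 - r)⁻¹ + Real.log 2) := by
      calc ((k:ℝ) + 1) * (M + 1) * Real.log 2 = (M + 1) * (k * Real.log 2 + Real.log 2) := by ring
        _ ≤ _ := by gcongr
    have h6 : Tc f r + 1 ≤ 4 / δ *
        ((M + 1) * (Real.log κ⁻¹ + Real.log (1 - r)⁻¹ + Real.log 2) + 1) := by
      have h7 : Tc f r + 1 ≤ 4 * (((k + 1) * (M + 1)) * Real.log 2 + 1) / δ := by
        rw [le_div_iff₀ hδ0, mul_comm]; exact h4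
      refine h7.trans ?_
      rw [div_mul_eq_mul_div]
      gcongr
    calc Tc f r ≤ 4 / δ * ((M + 1) * (Real.log κ⁻¹ + Real.log (1 - r)⁻¹ + Real.log 2) + 1) := by
          linarith
      _ = _ := by ring

/-- the function with value `2 ^ (j + 1)` at `1 - 1 / (j + 1)` -/
noncomputable def twoE : HD := mk (fun z => Complex.exp (Real.log 2 / (1 - z)))
  (((differentiableOn_const _).div ((differentiableOn_const _).sub differentiableOn_id)
    fun _ hz => one_sub_ne hz).cexp)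

theorem twoE_val (j : ℕ) : twoE.1 ((j:ℂ) / (j + 1)) = 2 ^ (j + 1) := by
  rw [twoE, mk_apply (div_mem j)]
  have h0 : (j:ℂ) + 1 ≠ 0 := Nat.cast_add_one_ne_zero j
  have h1 : (Real.log 2 : ℂ) / (1 - (j:ℂ) / (j + 1)) = ((j + 1 : ℕ) : ℂ) * (Real.log 2 : ℂ) := by
    have : (1 - (j:ℂ) / (j + 1)) = 1 / (j + 1) := by field_simp; ring
    rw [this]; push_cast; field_simp
  rw [h1, Complex.exp_nat_mul, ← Complex.ofReal_exp, Real.exp_log (by norm_num)]
  norm_num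

theorem VP_twoE (j : ℕ) (a : ℂ) : VP (lin 0) twoE j (cst a) ↔ a = 2 ^ (j + 1) := by
  have h0 : (j:ℂ) + 1 ≠ 0 := Nat.cast_add_one_ne_zero j
  have h1 : (((j:HD) + 1) * lin 0 - j) = cst (j + 1) * lin ((j:ℂ) / (j + 1)) := by
    apply ext'; intro w hw
    rw [sub_apply, mul_apply, add_apply, natCast_apply, one_apply, lin_apply _ hw, mul_apply,
      cst_apply, lin_apply _ hw]
    field_simp
    ring
  have hu : IsUnit (cst ((j:ℂ) + 1)) := by
    rw [isUnit_iff]; intro w _; rwa [cst_apply]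
  unfold VP
  rw [h1, hu.mul_left_dvd, lin_dvd (div_mem j), sub_apply, cst_apply, twoE_val, sub_eq_zero]
  exact eq_comm

theorem eseq_twoE : ESeq (lin 0) twoE := by
  have h2 : (2:HD) = cst 2 := by
    apply ext'; intro w _
    rw [cst_apply, ← Nat.cast_ofNat, natCast_apply]; norm_num
  constructor
  · have := (VP_twoE 0 2).2 (by norm_num)
    rw [← h2] at this
    simpa using this
  · intro j a hj ha h
    obtain ⟨j, rfl⟩ := (natP_iff _).1 hj
    obtain ⟨a, rfl⟩ := (cstP_iff _).1 ha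
    rw [VP_twoE] at h
    have h3 : (j:HD) + 1 = ((j + 1 : ℕ) : HD) := by push_cast; rfl
    rw [h3, h2, ← cst_mul, VP_twoE, h]
    ring

theorem NA_of (f : HD) (C ρ : ℝ) (hρ : ρ < 1)
    (h : ∀ r : ℝ, ρ < r → r < 1 → Tc f r ≤ C * Real.log (1 - r)⁻¹) : NA f := by
  set ρ' : ℝ := max ((ρ + 1) / 2) (1/2) with hρ'
  have hρ'1 : ρ' < 1 := max_lt (by linarith) (by norm_num)
  have hρ'0 : 0 < ρ' := lt_max_of_lt_right (by norm_num)
  have hρρ' : ρ < ρ' := lt_max_of_lt_left (by linarith)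
  have hl2 : 0 < Real.log 2 := Real.log_pos (by norm_num)
  set l₀ : ℝ := Real.log (1 - ρ')⁻¹ with hl₀
  have hl₀0 : 0 ≤ l₀ := Real.log_nonneg ((one_le_inv₀ (by linarith)).2 (by linarith))
  obtain ⟨M, hM⟩ := exists_nat_ge ((|C| * (l₀ + Real.log 2) + 1) / Real.log 2)
  refine ⟨lin 0, lin 0, twoE, discP_lin, irreducible_lin zero_mem, dvd_rfl, eseq_twoE, M,
    (natP_iff _).2 ⟨M, rfl⟩, fun k A B hk hA hB hkA hkB => ?_⟩
  obtain ⟨k, rfl⟩ := (natP_iff _).1 hk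
  obtain ⟨A, rfl⟩ := (cstP_iff _).1 hA
  obtain ⟨B, rfl⟩ := (cstP_iff _).1 hB
  rw [VP_twoE] at hkA
  have h3 : (k:HD) * M + k + M = ((k * M + k + M : ℕ) : HD) := by push_cast; rfl
  rw [h3, VP_twoE] at hkB
  subst hkA
  set r : ℝ := max ρ' (1 - (1/2 : ℝ) ^ (k + 1)) with hr
  have hr0 : 0 < r := hρ'0.trans_le (le_max_left _ _)
  have hr1 : r < 1 := max_lt hρ'1 (by have : (0:ℝ) < (1/2 : ℝ) ^ (k + 1) := by positivity
                                      linarith)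
  obtain ⟨G, hG1, hG2, hG3⟩ := majorant f hr0 hr1
  refine ⟨G, (maj_iff discP_lin k).2 ⟨hG1, fun w hw hzw => hG2 w ?_⟩, ?_⟩
  · rw [lin_apply _ hw, sub_zero] at hzw
    exact hzw.le.trans (le_max_right _ _)
  · rw [maj_at discP_lin zero_mem (Associated.refl _) _ rfl, hkB, norm_pow, Complex.norm_ofNat]
    refine hG3.trans ?_
    have h4 : (2:ℝ) ^ (k * M + k + M + 1) = Real.exp (((k + 1) * (M + 1)) * Real.log 2) := by
      have : k * M + k + M + 1 = (k + 1) * (M + 1) := by ring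
      rw [this, ← Real.rpow_natCast, Real.rpow_def_of_pos (by norm_num)]
      push_cast; ring_nf
    rw [h4, Real.exp_le_exp]
    have h5 : Real.log (1 - r)⁻¹ ≤ (k + 1) * (l₀ + Real.log 2) := by
      rcases le_total ρ' (1 - (1/2 : ℝ) ^ (k + 1)) with h6 | h6
      · have : r = 1 - (1/2 : ℝ) ^ (k + 1) := max_eq_right h6
        rw [this]
        have h7 : (1 - (1 - (1/2 : ℝ) ^ (k + 1)))⁻¹ = 2 ^ (k + 1) := by
          rw [sub_sub_cancel, one_div, inv_pow, inv_inv]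
        rw [h7, Real.log_pow]
        push_cast
        have : 0 ≤ (k:ℝ) + 1 := by positivity
        nlinarith
      · have : r = ρ' := max_eq_left h6
        rw [this, ← hl₀]
        have : 0 ≤ (k:ℝ) := Nat.cast_nonneg k
        nlinarith
    have h6 : Tc f r ≤ |C| * ((k + 1) * (l₀ + Real.log 2)) := by
      refine (h r (hρρ'.trans_le (le_max_left _ _)) hr1).trans ?_
      have h7 : 0 ≤ Real.log (1 - r)⁻¹ := Real.log_nonneg ((one_le_inv₀ (by linarith)).2 (by linarith))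
      calc C * Real.log (1 - r)⁻¹ ≤ |C| * Real.log (1 - r)⁻¹ := by
            gcongr; exact le_abs_self C
        _ ≤ _ := by gcongr
    rw [div_le_iff₀ hl2] at hM
    have hk0 : 0 ≤ (k:ℝ) := Nat.cast_nonneg k
    calc Tc f r + 1 ≤ |C| * ((k + 1) * (l₀ + Real.log 2)) + 1 := by linarith
      _ ≤ (k + 1) * (|C| * (l₀ + Real.log 2) + 1) := by
          have : 0 ≤ |C| * (l₀ + Real.log 2) := by positivity
          nlinarith
      _ ≤ (k + 1) * (M * Real.log 2) := by gcongr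
      _ ≤ _ := by nlinarith [mul_nonneg (show (0:ℝ) ≤ k + 1 by positivity) hl2.le]

theorem NA_iff (f : HD) : NA f ↔ (fun r => Tc f r) =O[𝓝[<] (1:ℝ)] (fun r => Real.log (1 - r)⁻¹) := by
  constructor
  · intro h
    obtain ⟨C₁, C₂, ρ, hC₁, hC₂, hρ, h⟩ := NA_imp f h
    refine Asymptotics.IsBigO.of_bound (C₁ + C₂) ?_
    have hmem : Ioo (max ρ (1 - Real.exp (-1))) 1 ∈ 𝓝[<] (1:ℝ) :=
      Ioo_mem_nhdsLT (max_lt hρ (by have := Real.exp_pos (-1); linarith))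
    filter_upwards [hmem] with r hr
    have h1 : ρ < r := (le_max_left _ _).trans_lt hr.1
    have h2 : 1 - Real.exp (-1) < r := (le_max_right _ _).trans_lt hr.1
    have h3 : 1 ≤ Real.log (1 - r)⁻¹ := by
      rw [Real.log_inv]
      have h4 : 0 < 1 - r := by linarith [hr.2]
      have h5 := Real.log_le_log h4 (show 1 - r ≤ Real.exp (-1) by linarith)
      rw [Real.log_exp] at h5
      linarith
    rw [Real.norm_eq_abs, Real.norm_eq_abs, abs_of_nonneg (Tc_nonneg f r),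
      abs_of_nonneg (by linarith)]
    have h6 := h r h1 hr.2
    nlinarith
  · intro h
    obtain ⟨C, hC⟩ := h.bound
    rw [eventually_nhdsWithin_iff] at hC
    obtain ⟨ε, hε, hball⟩ := Metric.eventually_nhds_iff.1 hC
    refine NA_of f C (max (1 - ε) 0) (max_lt (by linarith) one_pos) fun r hr hr1 => ?_
    have h1 : 1 - ε < r := (le_max_left _ _).trans_lt hr
    have h0 : 0 < r := (le_max_right _ _).trans_lt hr
    have h2 := hball (y := r) (by rw [Real.dist_eq, abs_sub_comm, abs_of_pos (by linarith)]; linarith)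
      hr1
    rw [Real.norm_eq_abs, Real.norm_eq_abs, abs_of_nonneg (Tc_nonneg f r), abs_of_nonneg
      (Real.log_nonneg ((one_le_inv₀ (by linarith)).2 (by linarith)))] at h2
    exact h2

end Pool.Agent.R614.Hol
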