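import Pool.Agent.R614.HD.Nev
import Pool.Agent.R614.Dfn
set_option autoImplicit false

/-!
# Definability
-/

open Metric Set Filter Topology

namespace Pool.Agent.R614.Hol

open Pool.Agent.R614

theorem df_app5 {M P : Type} [CommRing M] {c : P → M} {R : M → M → M → M → M → Prop}
    (hR : Df c (fun v => R (v 0) (v 1) (v 2) (v 3) (v 4)))
    (s t u w x : (ℕ → M) → M) [Tf c s] [Tf c t] [Tf c u] [Tf c w] [Tf c x] :
    Df c (fun v => R (s v) (t v) (u v) (w v) (x v)) :=
  df_subst hR (fun n => match n with | 0 => s | 1 => t | 2 => u | 3 => w | 4 => x | _ => fun v => v 0)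
    (fun n => by
    match n with
    | 0 => infer_instance
    | 1 => infer_instance
    | 2 => infer_instance
    | 3 => infer_instance
    | 4 => infer_instance
    | n + 5 => exact tf_var 0)

/-- the values of the function coding powers of `2` -/
def VP (z E j a : HD) : Prop := ((j + 1) * z - j) ∣ (E - a)

/-- `E` takes the value `2 ^ (j + 1)` at `1 - 1 / (j + 1)` -/
def ESeq (z E : HD) : Prop :=
  VP z E 0 2 ∧ ∀ j a, NatP j → CstP a → VP z E j a → VP z E (j + 1) (2 * a)

/-- `G` is a majorant of `f` -/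
def Maj (z f K G : HD) : Prop := IsUnit G ∧ ∀ p c a b, Irreducible p → CstP c → CstP a → CstP b →
  p ∣ z - c → LtP z (K * c) (K - 1) → p ∣ G - a → p ∣ f - b → ¬ LtP z a b ∧ ¬ LtP z a 1

/-- the property of having small characteristic -/
def NA (f : HD) : Prop := ∃ z p₀ E, DiscP z ∧ Irreducible p₀ ∧ p₀ ∣ z ∧ ESeq z E ∧ ∃ M, NatP M ∧
  ∀ k A B, NatP k → CstP A → CstP B → VP z E k A → VP z E (k * M + k + M) B →
    ∃ G, Maj z f A G ∧ ∀ a, CstP a → p₀ ∣ G - a → ¬ LtP z B a

section

variable {P : Type} {c : P → HD}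

instance df_irr {s : (ℕ → HD) → HD} [Tf c s] : Df c (fun v => Irreducible (s v)) :=
  df_app1 (R := fun p => Irreducible p) (Df.congr (R := fun v => ¬ IsUnit (v 0) ∧
    ∀ a, ∀ b, v 0 = a * b → IsUnit a ∨ IsUnit b) (by infer_instance) fun v => by
      rw [_root_.irreducible_iff]) s

instance df_E {s : (ℕ → HD) → HD} [Tf c s] : Df c (fun v => E (s v)) :=
  df_app1 (R := E) (by unfold E; infer_instance) s

instance df_G2 {s : (ℕ → HD) → HD} [Tf c s] : Df c (fun v => G2 (s v)) :=
  df_app1 (R := G2) (by unfold G2; infer_instance) s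

instance df_CodeX {s t u w x : (ℕ → HD) → HD} [Tf c s] [Tf c t] [Tf c u] [Tf c w] [Tf c x] :
    Df c (fun v => CodeX (s v) (t v) (u v) (w v) (x v)) :=
  df_app5 (R := CodeX) (by unfold CodeX; infer_instance) s t u w x

instance df_NatP {s : (ℕ → HD) → HD} [Tf c s] : Df c (fun v => NatP (s v)) :=
  df_app1 (R := NatP) (by unfold NatP; infer_instance) s

instance df_CstP {s : (ℕ → HD) → HD} [Tf c s] : Df c (fun v => CstP (s v)) :=
  df_app1 (R := CstP) (by unfold CstP; infer_instance) s

instance df_DiscP {s : (ℕ → HD) → HD} [Tf c s] : Df c (fun v => DiscP (s v)) :=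
  df_app1 (R := DiscP) (by unfold DiscP; infer_instance) s

instance df_LtP {s t u : (ℕ → HD) → HD} [Tf c s] [Tf c t] [Tf c u] :
    Df c (fun v => LtP (s v) (t v) (u v)) :=
  df_app3 (R := LtP) (by unfold LtP; infer_instance) s t u

instance df_VP {s t u w : (ℕ → HD) → HD} [Tf c s] [Tf c t] [Tf c u] [Tf c w] :
    Df c (fun v => VP (s v) (t v) (u v) (w v)) :=
  df_app4 (R := VP) (by unfold VP; infer_instance) s t u w

instance df_ESeq {s t : (ℕ → HD) → HD} [Tf c s] [Tf c t] :
    Df c (fun v => ESeq (s v) (t v)) :=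
  df_app2 (R := ESeq) (by unfold ESeq; infer_instance) s t

instance df_Maj {s t u w : (ℕ → HD) → HD} [Tf c s] [Tf c t] [Tf c u] [Tf c w] :
    Df c (fun v => Maj (s v) (t v) (u v) (w v)) :=
  df_app4 (R := Maj) (by unfold Maj; infer_instance) s t u w

theorem df_NA : Df c (fun v => NA (v 0)) := by unfold NA; infer_instance

end

end Pool.Agent.R614.Hol
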