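import Pool.Agent.R614.HD.Basic
set_option autoImplicit false

/-!
# Interpolation of jets in the disc
-/

open Metric Set Filter Topology Polynomial

namespace Pool.Agent.R614.Hol

theorem norm_one_sub_pow (w : ℂ) (m : ℕ) : ‖1 - (1 - w) ^ m‖ ≤ (1 + ‖w‖) ^ m - 1 := by
  induction m with
  | zero => simp
  | succ m ih =>
    have h1 : 1 - (1 - w) ^ (m + 1) = (1 - (1 - w) ^ m) + w * (1 - w) ^ m := by ring
    rw [h1]
    refine (norm_add_le _ _).trans ?_
    have h2 : ‖w * (1 - w) ^ m‖ ≤ ‖w‖ * (1 + ‖w‖) ^ m := by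
      rw [norm_mul, norm_pow]
      gcongr
      refine (norm_sub_le _ _).trans ?_
      rw [norm_one]
    calc _ ≤ ((1 + ‖w‖) ^ m - 1) + ‖w‖ * (1 + ‖w‖) ^ m := add_le_add ih h2
      _ = _ := by ring

theorem step (a : ℂ) (ρ : ℝ) (ha : a ≠ 0) (hρ : ρ < ‖a‖) (P g : ℂ[X]) (hP : P.eval a ≠ 0) (m : ℕ)
    (ε : ℝ) (hε : 0 < ε) :
    ∃ U : ℂ[X], (X - C a) ^ m ∣ P * U - g ∧ ∀ z : ℂ, ‖z‖ ≤ ρ → ‖U.eval z‖ ≤ ε := by
  have hcop : IsCoprime P ((X - C a) ^ m) := by
    refine IsCoprime.pow_right (IsCoprime.symm ?_)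
    refine ((irreducible_X_sub_C a).coprime_iff_not_dvd).2 fun h => hP ?_
    exact (dvd_iff_isRoot.1 h)
  obtain ⟨τ, σ, hτ⟩ := hcop
  have hna : 0 < ‖a‖ := norm_pos_iff.2 ha
  set ρ' := max ρ 0 with hρ'
  have hρ0 : 0 ≤ ρ' := le_max_right _ _
  have hρa : ρ' < ‖a‖ := max_lt hρ hna
  obtain ⟨B, hB⟩ := (isCompact_closedBall (0:ℂ) ρ').exists_bound_of_continuousOn
    (f := fun z => (g * τ).eval z) (g * τ).continuous.continuousOn
  set B' := max B 1 with hB'
  have hB0 : 0 < B' := lt_max_of_lt_right one_pos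
  set θ := ρ' / ‖a‖ with hθ
  have hθ0 : 0 ≤ θ := by positivity
  have hθ1 : θ < 1 := (div_lt_one hna).2 hρa
  have hlim : Tendsto (fun q : ℕ => (1 + θ ^ q) ^ m - 1) atTop (𝓝 0) := by
    have h1 := tendsto_pow_atTop_nhds_zero_of_lt_one hθ0 hθ1
    have h2 := ((h1.const_add 1).pow m).sub_const 1
    simpa using h2
  obtain ⟨q, hq⟩ := (hlim.eventually (gt_mem_nhds (show (0:ℝ) < ε / B' by positivity))).exists
  set η : ℂ[X] := 1 - (1 - C ((a⁻¹) ^ q) * X ^ q) ^ m with hη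
  refine ⟨g * τ * η, ?_, fun z hz => ?_⟩
  · have h1 : (X - C a) ∣ (1 - C ((a⁻¹) ^ q) * X ^ q) := by
      rw [dvd_iff_isRoot, IsRoot.def]
      simp only [eval_sub, eval_one, eval_mul, eval_C, eval_pow, eval_X]
      rw [← mul_pow, inv_mul_cancel₀ ha, one_pow, sub_self]
    have h2 := pow_dvd_pow_of_dvd h1 m
    have h3 : P * (g * τ * η) - g = -(g * (1 - C ((a⁻¹) ^ q) * X ^ q) ^ m)
        - g * σ * η * (X - C a) ^ m := by
      have h4 : τ * P = 1 - σ * (X - C a) ^ m := by rw [← hτ]; ring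
      calc P * (g * τ * η) - g = g * η * (τ * P) - g := by ring
        _ = _ := by rw [h4, hη]; ring
    rw [h3]
    exact dvd_sub ((h2.mul_left g).neg_right) (Dvd.intro_left _ rfl)
  · have hz' : ‖z‖ ≤ ρ' := hz.trans (le_max_left _ _)
    rw [eval_mul, norm_mul]
    have h1 : ‖(g * τ).eval z‖ ≤ B' :=
      (hB z (by simpa using hz')).trans (le_max_left _ _)
    have h2 : ‖η.eval z‖ ≤ ε / B' := by
      rw [hη]
      simp only [eval_sub, eval_one, eval_mul, eval_C, eval_pow, eval_X]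
      refine (norm_one_sub_pow _ m).trans (le_trans ?_ hq.le)
      have h3 : ‖(a⁻¹) ^ q * z ^ q‖ ≤ θ ^ q := by
        rw [← mul_pow, norm_pow, norm_mul, norm_inv]
        refine pow_le_pow_left₀ (by positivity) ?_ q
        rw [hθ, div_eq_inv_mul]
        gcongr
      gcongr
    calc _ ≤ B' * (ε / B') := mul_le_mul h1 h2 (norm_nonneg _) hB0.le
      _ = ε := by field_simp

theorem tsum_hol (F : ℕ → ℂ[X]) (ρ : ℕ → ℝ) (hρ : Tendsto ρ atTop (𝓝 1))
    (hF : ∀ j z, ‖z‖ ≤ ρ j → ‖(F j).eval z‖ ≤ (1/2 : ℝ) ^ j) :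
    (∀ z ∈ D, Summable fun j => (F j).eval z) ∧
      DifferentiableOn ℂ (fun z => ∑' j, (F j).eval z) D := by
  have key : ∀ r : ℝ, r < 1 → ∃ u : ℕ → ℝ, Summable u ∧
      ∀ j w, w ∈ ball (0:ℂ) r → ‖(F j).eval w‖ ≤ u j := by
    intro r hr
    obtain ⟨j₀, hj₀⟩ := eventually_atTop.1 (hρ.eventually (lt_mem_nhds hr))
    have hB : ∀ j, ∃ B : ℝ, ∀ z ∈ closedBall (0:ℂ) r, ‖(F j).eval z‖ ≤ B := fun j =>
      (isCompact_closedBall (0:ℂ) r).exists_bound_of_continuousOn (F j).continuous.continuousOn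
    choose B hB using hB
    refine ⟨fun j => if j ∈ Finset.range j₀ then B j else (1/2 : ℝ) ^ j, ?_, ?_⟩
    · have h1 : Summable fun j : ℕ => (1/2 : ℝ) ^ j := summable_geometric_two
      refine (h1.add (summable_of_ne_finset_zero (s := Finset.range j₀)
        (f := fun j => if j ∈ Finset.range j₀ then B j - (1/2 : ℝ) ^ j else 0) ?_)).congr ?_
      · intro j hj; exact if_neg hj
      · intro j
        by_cases hj : j ∈ Finset.range j₀
        · simp only [if_pos hj]; ring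
        · simp only [if_neg hj]; ring
    · intro j w hw
      by_cases hj : j ∈ Finset.range j₀
      · simp only [if_pos hj]; exact hB j w (ball_subset_closedBall hw)
      · simp only [if_neg hj]
        have h2 : j₀ ≤ j := by simpa using hj
        refine hF j w (le_trans ?_ (hj₀ j h2).le)
        exact (by simpa using hw : ‖w‖ < r).le
  constructor
  · intro z hz
    obtain ⟨r, hr1, hr2⟩ := exists_between (show ‖z‖ < 1 by simpa using hz)
    obtain ⟨u, hu, h⟩ := key r hr2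
    exact Summable.of_norm_bounded hu fun j => h j z (by simpa using hr1)
  · intro z hz
    obtain ⟨r, hr1, hr2⟩ := exists_between (show ‖z‖ < 1 by simpa using hz)
    obtain ⟨u, hu, h⟩ := key r hr2
    have h1 : DifferentiableOn ℂ (fun z => ∑' j, (F j).eval z) (ball 0 r) :=
      Complex.differentiableOn_tsum_of_summable_norm hu (fun j => (F j).differentiable.differentiableOn)
        isOpen_ball h
    have hzr : z ∈ ball (0:ℂ) r := by simpa using hr1
    exact (h1.differentiableAt (isOpen_ball.mem_nhds hzr)).differentiableWithinAt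

/-- polynomials as elements of the ring -/
noncomputable def pol (p : ℂ[X]) : HD := mk (fun z => p.eval z) p.differentiable.differentiableOn

theorem pol_apply (p : ℂ[X]) {z : ℂ} (hz : z ∈ D) : (pol p).1 z = p.eval z := mk_apply hz

theorem pow_lin_dvd_pol {a : ℂ} {m : ℕ} {p : ℂ[X]} (h : (X - C a) ^ m ∣ p) :
    lin a ^ m ∣ pol p := by
  obtain ⟨q, rfl⟩ := h
  refine ⟨pol q, ext' fun z hz => ?_⟩
  rw [mul_apply, pow_apply, lin_apply a hz, pol_apply _ hz, pol_apply _ hz]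
  simp

theorem interp (a : ℕ → ℝ) (ha : StrictMono a) (ha0 : ∀ k, 0 < a k) (ha1 : ∀ k, a k < 1)
    (hlim : Tendsto a atTop (𝓝 1)) (g : ℕ → ℂ[X]) (m : ℕ → ℕ) :
    ∃ G : HD, ∀ k, lin (a k) ^ m k ∣ G - pol (g k) := by
  set ρ : ℕ → ℝ := fun j => a j ^ 2 with hρ
  have hρlim : Tendsto ρ atTop (𝓝 1) := by simpa using hlim.pow 2
  have hρa : ∀ j, ρ j < ‖((a j : ℝ) : ℂ)‖ := by
    intro j
    rw [Complex.norm_real, Real.norm_eq_abs, abs_of_pos (ha0 j)]
    simp only [hρ]; nlinarith [ha0 j, ha1 j]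
  have hρ1 : ∀ j, ρ j ≤ 1 := by
    intro j; simp only [hρ]; nlinarith [ha0 j, ha1 j]
  set P : ℕ → ℂ[X] := fun j => ∏ i ∈ Finset.range j, (X - C ((a i : ℝ) : ℂ)) ^ m i with hP
  set W : ℕ → ℝ := fun j => ∏ i ∈ Finset.range j, (2:ℝ) ^ m i with hW
  have hW0 : ∀ j, 0 < W j := fun j => Finset.prod_pos fun i _ => by positivity
  have hPa : ∀ j, (P j).eval ((a j : ℝ) : ℂ) ≠ 0 := by
    intro j
    simp only [hP, eval_prod, Finset.prod_ne_zero_iff]
    intro i hi
    simp only [eval_pow, eval_sub, eval_X, eval_C]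
    refine pow_ne_zero _ (sub_ne_zero.2 ?_)
    have := ha (Finset.mem_range.1 hi)
    exact_mod_cast this.ne'
  have hstep : ∀ (j : ℕ) (g' : ℂ[X]), ∃ U : ℂ[X], (X - C ((a j : ℝ) : ℂ)) ^ m j ∣ P j * U - g' ∧
      ∀ z : ℂ, ‖z‖ ≤ ρ j → ‖U.eval z‖ ≤ (1/2 : ℝ) ^ j / W j := fun j g' =>
    step _ (ρ j) (by have := (ha0 j).ne'; exact_mod_cast this) (hρa j) (P j) g' (hPa j) (m j) _
      (by have := hW0 j; positivity)
  choose S hS1 hS2 using hstep
  set G : ℕ → ℂ[X] := fun n => Nat.rec 0 (fun j Gj => Gj + P j * S j (g j - Gj)) n with hG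
  set U : ℕ → ℂ[X] := fun j => S j (g j - G j) with hU
  have hG0 : G 0 = 0 := rfl
  have hGs : ∀ j, G (j + 1) = G j + P j * U j := fun j => rfl
  have hGsum : ∀ j, G j = ∑ i ∈ Finset.range j, P i * U i := by
    intro j
    induction j with
    | zero => simp [hG0]
    | succ j ih => rw [hGs, Finset.sum_range_succ, ← ih]
  have hbase : ∀ k, (X - C ((a k : ℝ) : ℂ)) ^ m k ∣ G (k + 1) - g k := by
    intro k
    have := hS1 k (g k - G k)
    rw [hGs]
    convert this using 1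
    simp only [hU]; ring
  have hfac : ∀ (z : ℂ), ‖z‖ ≤ 1 → ∀ i, ‖((X - C ((a i : ℝ) : ℂ)) ^ m i).eval z‖ ≤ 2 ^ m i := by
    intro z hz i
    simp only [eval_pow, eval_sub, eval_X, eval_C, norm_pow]
    refine pow_le_pow_left₀ (norm_nonneg _) ((norm_sub_le _ _).trans ?_) _
    rw [Complex.norm_real, Real.norm_eq_abs, abs_of_pos (ha0 i)]
    linarith [ha1 i]
  have hPU : ∀ j z, ‖z‖ ≤ ρ j → ‖(P j * U j).eval z‖ ≤ (1/2 : ℝ) ^ j := by
    intro j z hz
    rw [eval_mul, norm_mul]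
    have h1 : ‖(P j).eval z‖ ≤ W j := by
      simp only [hP, hW, eval_prod, norm_prod]
      exact Finset.prod_le_prod (fun i _ => norm_nonneg _)
        fun i _ => hfac z (hz.trans (hρ1 j)) i
    calc _ ≤ W j * ((1/2 : ℝ) ^ j / W j) :=
          mul_le_mul h1 (hS2 j _ z hz) (norm_nonneg _) (hW0 j).le
      _ = _ := by have := (hW0 j).ne'; field_simp
  obtain ⟨hsum, hdiff⟩ := tsum_hol (fun j => P j * U j) ρ hρlim hPU
  refine ⟨mk _ hdiff, fun k => ?_⟩
  -- the tail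
  set Q : ℕ → ℂ[X] := fun j => ∏ i ∈ (Finset.range j).erase k, (X - C ((a i : ℝ) : ℂ)) ^ m i with hQ
  have hPQ : ∀ j, k < j → P j = (X - C ((a k : ℝ) : ℂ)) ^ m k * Q j := by
    intro j hj
    simp only [hP, hQ]
    exact (Finset.mul_prod_erase _ _ (Finset.mem_range.2 hj)).symm
  have hQU : ∀ j z, ‖z‖ ≤ ρ (j + (k + 1)) →
      ‖(Q (j + (k + 1)) * U (j + (k + 1))).eval z‖ ≤ (1/2 : ℝ) ^ j := by
    intro j z hz
    set n := j + (k + 1) with hn
    rw [eval_mul, norm_mul]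
    have h1 : ‖(Q n).eval z‖ ≤ W n := by
      simp only [hQ, hW, eval_prod, norm_prod]
      refine (Finset.prod_le_prod (fun i _ => norm_nonneg _)
        fun i _ => hfac z (hz.trans (hρ1 n)) i).trans ?_
      exact Finset.prod_le_prod_of_subset_of_one_le (Finset.erase_subset _ _)
        (fun i _ => by positivity) (fun i _ _ => one_le_pow₀ (by norm_num))
    calc _ ≤ W n * ((1/2 : ℝ) ^ n / W n) :=
          mul_le_mul h1 (hS2 n _ z hz) (norm_nonneg _) (hW0 n).le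
      _ = (1/2 : ℝ) ^ n := by have := (hW0 n).ne'; field_simp
      _ ≤ (1/2 : ℝ) ^ j := pow_le_pow_of_le_one (by norm_num) (by norm_num) (by omega)
  have hρlim' : Tendsto (fun j => ρ (j + (k + 1))) atTop (𝓝 1) :=
    (tendsto_add_atTop_iff_nat (k + 1)).2 hρlim
  obtain ⟨hsum', hdiff'⟩ := tsum_hol (fun j => Q (j + (k + 1)) * U (j + (k + 1))) _ hρlim' hQU
  have hsplit : mk _ hdiff - pol (g k) = pol (G (k + 1) - g k) +
      lin (a k) ^ m k * mk _ hdiff' := by
    apply ext'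
    intro z hz
    rw [sub_apply, add_apply, mul_apply, pow_apply, mk_apply hz, mk_apply hz, pol_apply _ hz,
      pol_apply _ hz, lin_apply _ hz]
    have hG1 : (G (k + 1)).eval z = ∑ i ∈ Finset.range (k + 1), (P i * U i).eval z := by
      rw [hGsum (k + 1), eval_finset_sum]
    rw [← (hsum z hz).sum_add_tsum_nat_add (k + 1), eval_sub, hG1]
    have : ∑' i, (P (i + (k + 1)) * U (i + (k + 1))).eval z =
        (z - ((a k : ℝ) : ℂ)) ^ m k * ∑' i, (Q (i + (k + 1)) * U (i + (k + 1))).eval z := by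
      rw [← tsum_mul_left]
      refine tsum_congr fun i => ?_
      rw [hPQ _ (by omega)]
      simp only [eval_mul, eval_pow, eval_sub, eval_X, eval_C]
      ring
    rw [this]; ring
  rw [hsplit]
  exact dvd_add (pow_lin_dvd_pol (hbase k)) (Dvd.intro _ rfl)

end Pool.Agent.R614.Hol
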