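import Pool.Agent.R614.HD.Cst
set_option autoImplicit false

/-!
# Harmonic majorants
-/

open Metric Set Filter Topology Polynomial

namespace Pool.Agent.R614.Hol

/-- a Harnack inequality -/
theorem harnack {H : ℂ → ℂ} {r : ℝ} (hH : DifferentiableOn ℂ H (ball 0 r))
    (hpos : ∀ z ∈ ball (0:ℂ) r, 0 < (H z).re) {w : ℂ} (hw : ‖w‖ < r) :
    (1 - (‖w‖ / r) ^ 2) * (H 0).re ≤ 4 * (H w).re := by
  have hr : 0 < r := (norm_nonneg w).trans_lt hw
  have h0 : (0:ℂ) ∈ ball (0:ℂ) r := mem_ball_self hr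
  have hwb : w ∈ ball (0:ℂ) r := by simpa using hw
  set a := H 0 with ha
  have ha0 : 0 < a.re := hpos 0 h0
  have hden : ∀ z ∈ ball (0:ℂ) r, H z + (starRingEnd ℂ) a ≠ 0 := by
    intro z hz h
    have h1 : (H z + (starRingEnd ℂ) a).re = 0 := by rw [h]; rfl
    rw [Complex.add_re, Complex.conj_re] at h1
    linarith [hpos z hz]
  have hkey : ∀ b : ℂ, ‖b + (starRingEnd ℂ) a‖ ^ 2 - ‖b - a‖ ^ 2 = 4 * a.re * b.re := by
    intro b
    rw [Complex.sq_norm, Complex.sq_norm, Complex.normSq_apply, Complex.normSq_apply]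
    simp only [Complex.add_re, Complex.add_im, Complex.sub_re, Complex.sub_im, Complex.conj_re,
      Complex.conj_im]
    ring
  set φ : ℂ → ℂ := fun z => (H z - a) / (H z + (starRingEnd ℂ) a) with hφ
  have hφd : DifferentiableOn ℂ φ (ball 0 r) := (hH.sub_const _).div (hH.add_const _) hden
  have hφ0 : φ 0 = 0 := by simp only [hφ, ← ha, sub_self, zero_div]
  have hmaps : MapsTo φ (ball 0 r) (closedBall (φ 0) 1) := by
    intro z hz
    rw [hφ0, mem_closedBall_zero_iff]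
    simp only [hφ, norm_div]
    rw [div_le_one (norm_pos_iff.2 (hden z hz))]
    have := hkey (H z)
    have h2 := mul_pos ha0 (hpos z hz)
    exact abs_le_of_sq_le_sq' (by nlinarith) (norm_nonneg _) |>.2
  have h1 := Complex.dist_le_div_mul_dist_of_mapsTo_ball hφd hmaps hwb
  rw [hφ0, dist_zero_right, dist_zero_right] at h1
  set t := ‖w‖ / r with ht
  have ht0 : 0 ≤ t := by positivity
  have ht1 : t < 1 := (div_lt_one hr).2 hw
  have h2 : ‖H w - a‖ ≤ t * ‖H w + (starRingEnd ℂ) a‖ := by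
    have h3 := norm_pos_iff.2 (hden w hwb)
    have : ‖φ w‖ = ‖H w - a‖ / ‖H w + (starRingEnd ℂ) a‖ := by simp only [hφ, norm_div]
    rw [this, div_le_iff₀ h3] at h1
    have h4 : 1 / r * ‖w‖ = t := by rw [ht]; ring
    rwa [h4] at h1
  have h3 : a.re ≤ ‖H w + (starRingEnd ℂ) a‖ := by
    refine le_trans ?_ (Complex.re_le_norm _)
    rw [Complex.add_re, Complex.conj_re]
    linarith [hpos w hwb]
  have h4 := hkey (H w)
  have h5 : ‖H w - a‖ ^ 2 ≤ t ^ 2 * ‖H w + (starRingEnd ℂ) a‖ ^ 2 := by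
    rw [← mul_pow]; exact pow_le_pow_left₀ (norm_nonneg _) h2 2
  have h6 : (1 - t ^ 2) * a.re ^ 2 ≤ (1 - t ^ 2) * ‖H w + (starRingEnd ℂ) a‖ ^ 2 := by
    have : 0 ≤ 1 - t ^ 2 := by nlinarith
    gcongr
  have h7 : (1 - t ^ 2) * a.re * a.re ≤ 4 * (H w).re * a.re := by nlinarith
  exact le_of_mul_le_mul_right h7 ha0

theorem pick (z : HD) (hz : ∀ w ∈ D, ‖z.1 w‖ < 1) {w : ℂ} (hw : w ∈ D) :
    (1 - ‖w‖) * (1 - ‖z.1 0‖) ≤ 4 * (1 - ‖z.1 w‖) := by
  obtain ⟨u, hu1, hu2⟩ : ∃ u : ℂ, ‖u‖ = 1 ∧ u * z.1 w = ‖z.1 w‖ := by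
    by_cases h0 : z.1 w = 0
    · exact ⟨1, norm_one, by rw [h0]; simp⟩
    · have h1 : (‖z.1 w‖ : ℂ) ≠ 0 := by exact_mod_cast (norm_pos_iff.2 h0).ne'
      refine ⟨(starRingEnd ℂ) (z.1 w) / ‖z.1 w‖, ?_, ?_⟩
      · rw [norm_div, RCLike.norm_conj, Complex.norm_real, norm_norm, div_self (norm_ne_zero_iff.2 h0)]
      · rw [div_mul_eq_mul_div, mul_comm ((starRingEnd ℂ) (z.1 w)), Complex.mul_conj,
          Complex.normSq_eq_norm_sq]
        rw [div_eq_iff h1]; push_cast; ring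
  have hw1 : ‖w‖ < 1 := by simpa using hw
  have h1 := harnack (H := fun v => 1 - u * z.1 v) (r := 1)
    ((differentiableOn_const _).sub ((diff z).const_mul u)) (fun v hv => by
      rw [Complex.sub_re, Complex.one_re]
      have h2 := Complex.re_le_norm (u * z.1 v)
      rw [norm_mul, hu1, one_mul] at h2
      linarith [hz v hv]) hw1
  simp only [hu2, div_one, Complex.sub_re, Complex.one_re, Complex.ofReal_re] at h1
  refine le_trans ?_ h1
  have h2 := Complex.re_le_norm (u * z.1 0)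
  rw [norm_mul, hu1, one_mul] at h2
  have h3 : 0 ≤ 1 - ‖z.1 0‖ := by linarith [hz 0 zero_mem]
  have h4 : 1 - ‖w‖ ≤ 1 - ‖w‖ ^ 2 := by nlinarith [norm_nonneg w]
  have h5 : 0 ≤ 1 - ‖w‖ ^ 2 := by nlinarith [norm_nonneg w]
  calc (1 - ‖w‖) * (1 - ‖z.1 0‖) ≤ (1 - ‖w‖ ^ 2) * (1 - ‖z.1 0‖) := by gcongr
    _ ≤ (1 - ‖w‖ ^ 2) * (1 - (u * z.1 0).re) := by gcongr

/-- the Nevanlinna characteristic -/
noncomputable def Tc (f : HD) (r : ℝ) : ℝ := Real.circleAverage (fun z => Real.posLog ‖f.1 z‖) 0 r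

theorem Tc_eq (f : HD) (r : ℝ) : Tc f r = (2 * Real.pi)⁻¹ * ∫ θ in (0:ℝ)..(2 * Real.pi),
    Real.posLog ‖f.1 ((r : ℂ) * Complex.exp ((θ : ℂ) * Complex.I))‖ := by
  rw [Tc, Real.circleAverage_def, smul_eq_mul]
  simp only [circleMap, zero_add]

theorem continuousOn_posLog (f : HD) {s : Set ℂ} (hs : s ⊆ D) :
    ContinuousOn (fun z => Real.posLog ‖f.1 z‖) s :=
  Real.continuous_posLog.comp_continuousOn ((cont f).mono hs).norm

theorem circleIntegrable_posLog (f : HD) {r : ℝ} (hr0 : 0 ≤ r) (hr : r < 1) :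
    CircleIntegrable (fun z => Real.posLog ‖f.1 z‖) 0 r :=
  ContinuousOn.circleIntegrable hr0 (continuousOn_posLog f
    (sphere_subset_closedBall.trans (closedBall_subset_ball hr)))

theorem Tc_nonneg (f : HD) (r : ℝ) : 0 ≤ Tc f r :=
  Real.circleAverage_nonneg_of_nonneg fun _ _ => Real.posLog_nonneg

theorem le_exp_posLog {x : ℝ} (hx : 0 ≤ x) : x ≤ Real.exp (Real.posLog x) := by
  rcases hx.eq_or_lt with rfl | hx
  · positivity
  · calc x = Real.exp (Real.log x) := (Real.exp_log hx).symm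
      _ ≤ _ := Real.exp_le_exp.2 (le_max_right _ _)

theorem circleAverage_re {h : ℂ → ℂ} {r : ℝ} (hr0 : 0 < r) {s : Set ℂ} (hs : closedBall (0:ℂ) r ⊆ s)
    (hh : DifferentiableOn ℂ h s) : Real.circleAverage (fun z => (h z).re) 0 r = (h 0).re := by
  have h1 : DiffContOnCl ℂ h (ball 0 |r|) := by
    rw [abs_of_pos hr0]
    refine DifferentiableOn.diffContOnCl ?_
    rw [closure_ball _ hr0.ne']
    exact hh.mono hs
  have h2 := h1.circleAverage
  have hci : CircleIntegrable h 0 r :=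
    ContinuousOn.circleIntegrable hr0.le (hh.continuousOn.mono (sphere_subset_closedBall.trans hs))
  have h3 := Complex.reCLM.circleAverage_comp_comm hci
  rw [h2] at h3
  exact h3

/-- an upper bound for the characteristic -/
theorem Tc_le (f G : HD) (hG : IsUnit G) {r : ℝ} (hr0 : 0 < r) (hr : r < 1)
    (h : ∀ w : ℂ, ‖w‖ = r → 1 ≤ ‖G.1 w‖ ∧ ‖f.1 w‖ ≤ ‖G.1 w‖) : Tc f r ≤ Real.log ‖G.1 0‖ := by
  obtain ⟨H, hH, hGH⟩ := H113G.J_schottky.exists_log (diff G) ((isUnit_iff G).1 hG)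
  have hsub : closedBall (0:ℂ) r ⊆ D := closedBall_subset_ball hr
  have h1 : Real.log ‖G.1 0‖ = (H 0).re := by
    rw [← hGH 0 zero_mem, Complex.norm_exp, Real.log_exp]
  rw [h1, ← circleAverage_re hr0 hsub hH, Tc]
  refine Real.circleAverage_mono (circleIntegrable_posLog f hr0.le hr) ?_ ?_
  · exact ContinuousOn.circleIntegrable hr0.le (Complex.continuous_re.comp_continuousOn
      (hH.continuousOn.mono (sphere_subset_closedBall.trans hsub)))
  · intro w hw
    rw [abs_of_pos hr0] at hw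
    have hwr : ‖w‖ = r := by simpa using hw
    have hwD := hsub (sphere_subset_closedBall hw)
    obtain ⟨h2, h3⟩ := h w hwr
    have h4 : (H w).re = Real.log ‖G.1 w‖ := by
      rw [← hGH w hwD, Complex.norm_exp, Real.log_exp]
    show Real.posLog ‖f.1 w‖ ≤ (H w).re
    rw [h4, Real.posLog_apply]
    refine max_le (Real.log_nonneg h2) ?_
    rcases (norm_nonneg (f.1 w)).eq_or_lt with h5 | h5
    · rw [← h5, Real.log_zero]; exact Real.log_nonneg h2
    · exact Real.log_le_log h5 h3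

/-- Harnack's inequality for a unit -/
theorem harnack_unit (G : HD) (hG : IsUnit G) {r : ℝ} (hr : r ≤ 1)
    (h : ∀ w : ℂ, ‖w‖ < r → 1 ≤ ‖G.1 w‖) {w : ℂ} (hw : ‖w‖ < r) :
    (1 - (‖w‖ / r) ^ 2) * (Real.log ‖G.1 0‖ + 1) ≤ 4 * (Real.log ‖G.1 w‖ + 1) := by
  obtain ⟨H, hH, hGH⟩ := H113G.J_schottky.exists_log (diff G) ((isUnit_iff G).1 hG)
  have hsub : ball (0:ℂ) r ⊆ D := ball_subset_ball hr
  have hlog : ∀ v ∈ D, Real.log ‖G.1 v‖ = (H v).re := by
    intro v hv
    rw [← hGH v hv, Complex.norm_exp, Real.log_exp]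
  have h1 := harnack (H := fun v => H v + 1) (r := r) ((hH.mono hsub).add_const 1)
    (fun v hv => by
      have h2 := h v (by simpa using hv)
      rw [Complex.add_re, Complex.one_re, ← hlog v (hsub hv)]
      linarith [Real.log_nonneg h2]) hw
  rw [hlog 0 zero_mem, hlog w (hsub (by simpa using hw))]
  simpa using h1

instance : Fact (0 < 2 * Real.pi) := ⟨Real.two_pi_pos⟩

theorem approx_circle (u : C(AddCircle (2 * Real.pi), ℝ)) : ∃ q : ℂ[X],
    ∀ x : AddCircle (2 * Real.pi), u x ≤ (q.eval (AddCircle.toCircle x : ℂ)).re ∧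
      (q.eval (AddCircle.toCircle x : ℂ)).re ≤ u x + 1 := by
  set U : C(AddCircle (2 * Real.pi), ℂ) := ⟨fun x => ((u x + 1/2 : ℝ) : ℂ), by fun_prop⟩ with hU
  have hmem : U ∈ closure (Submodule.span ℂ (range (@fourier (2 * Real.pi))) : Set _) := by
    rw [← Submodule.topologicalClosure_coe, span_fourier_closure_eq_top]; trivial
  obtain ⟨p, hp, hpU⟩ := Metric.mem_closure_iff.1 hmem (1/2) (by norm_num)
  have hq : ∃ q₁ q₂ : ℂ[X], ∀ x : AddCircle (2 * Real.pi), p x =
      q₁.eval (AddCircle.toCircle x : ℂ) + (starRingEnd ℂ) (q₂.eval (AddCircle.toCircle x : ℂ)) := by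
    refine Submodule.span_induction (p := fun p _ => ∃ q₁ q₂ : ℂ[X],
      ∀ x : AddCircle (2 * Real.pi), p x = q₁.eval (AddCircle.toCircle x : ℂ) +
        (starRingEnd ℂ) (q₂.eval (AddCircle.toCircle x : ℂ))) ?_ ?_ ?_ ?_ hp
    · rintro _ ⟨n, rfl⟩
      have hnat : ∀ (m : ℕ) (x : AddCircle (2 * Real.pi)),
          fourier (m : ℤ) x = (AddCircle.toCircle x : ℂ) ^ m := by
        intro m x
        rw [fourier_apply, natCast_zsmul, AddCircle.toCircle_nsmul, Circle.coe_pow]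
      obtain ⟨m, rfl | rfl⟩ := n.eq_nat_or_neg
      · exact ⟨X ^ m, 0, fun x => by rw [hnat]; simp⟩
      · exact ⟨0, X ^ m, fun x => by rw [fourier_neg, hnat]; simp⟩
    · exact ⟨0, 0, fun x => by simp⟩
    · rintro p p' _ _ ⟨q₁, q₂, h⟩ ⟨q₁', q₂', h'⟩
      refine ⟨q₁ + q₁', q₂ + q₂', fun x => ?_⟩
      rw [ContinuousMap.add_apply, h, h', eval_add, eval_add, map_add]; ring
    · rintro c p _ ⟨q₁, q₂, h⟩
      refine ⟨C c * q₁, C ((starRingEnd ℂ) c) * q₂, fun x => ?_⟩
      rw [ContinuousMap.smul_apply, h, eval_mul, eval_mul, eval_C, eval_C, map_mul,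
        Complex.conj_conj, smul_eq_mul]; ring
  obtain ⟨q₁, q₂, hq⟩ := hq
  refine ⟨q₁ + q₂, fun x => ?_⟩
  have h1 : (p x).re = ((q₁ + q₂).eval (AddCircle.toCircle x : ℂ)).re := by
    rw [hq, eval_add, Complex.add_re, Complex.add_re, Complex.conj_re]
  have h2 : ‖U x - p x‖ < 1/2 := by
    rw [← dist_eq_norm]
    exact (ContinuousMap.dist_apply_le_dist x).trans_lt hpU
  have h3 := (Complex.abs_re_le_norm (U x - p x)).trans_lt h2
  rw [Complex.sub_re] at h3
  have h4 : (U x).re = u x + 1/2 := Complex.ofReal_re _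
  rw [h4, abs_lt] at h3
  rw [← h1]
  constructor <;> linarith [h3.1, h3.2]

/-- harmonic majorants given by units -/
theorem majorant (f : HD) {r : ℝ} (hr0 : 0 < r) (hr : r < 1) : ∃ G : HD, IsUnit G ∧
    (∀ w : ℂ, ‖w‖ ≤ r → 1 ≤ ‖G.1 w‖ ∧ ‖f.1 w‖ ≤ ‖G.1 w‖) ∧ ‖G.1 0‖ ≤ Real.exp (Tc f r + 1) := by
  have hsub : closedBall (0:ℂ) r ⊆ D := closedBall_subset_ball hr
  have hrc : (r : ℂ) ≠ 0 := by exact_mod_cast hr0.ne'
  have hnorm : ∀ x : AddCircle (2 * Real.pi), ‖(r : ℂ) * (AddCircle.toCircle x : ℂ)‖ = r := by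
    intro x
    rw [norm_mul, Circle.norm_coe, mul_one, Complex.norm_real, Real.norm_eq_abs, abs_of_pos hr0]
  set u : C(AddCircle (2 * Real.pi), ℝ) :=
    ⟨fun x => Real.posLog ‖f.1 ((r : ℂ) * (AddCircle.toCircle x : ℂ))‖, by
      have h1 : Continuous fun x : AddCircle (2 * Real.pi) =>
          (r : ℂ) * (AddCircle.toCircle x : ℂ) :=
        continuous_const.mul (continuous_subtype_val.comp AddCircle.continuous_toCircle)
      have h2 := (continuousOn_posLog f hsub).comp_continuous h1 fun x => by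
        rw [mem_closedBall_zero_iff, hnorm]
      exact h2⟩ with hu
  obtain ⟨q, hq⟩ := approx_circle u
  set g : ℂ → ℂ := fun z => q.eval (z / r) with hg
  have hgd : Differentiable ℂ g := q.differentiable.comp (differentiable_id.div_const _)
  have hsurj : ∀ w : ℂ, ‖w‖ = r → Real.posLog ‖f.1 w‖ ≤ (g w).re ∧
      (g w).re ≤ Real.posLog ‖f.1 w‖ + 1 := by
    intro w hw
    obtain ⟨x, hx⟩ : ∃ x : AddCircle (2 * Real.pi), (r : ℂ) * (AddCircle.toCircle x : ℂ) = w := by
      refine ⟨((Complex.arg w : ℝ) : AddCircle (2 * Real.pi)), ?_⟩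
      rw [AddCircle.toCircle_apply_mk]
      have h1 : 2 * Real.pi / (2 * Real.pi) * Complex.arg w = Complex.arg w := by
        rw [div_self Real.two_pi_pos.ne', one_mul]
      rw [h1, Circle.coe_exp, ← hw]
      exact Complex.norm_mul_exp_arg_mul_I w
    have h1 := hq x
    have h2 : g w = q.eval (AddCircle.toCircle x : ℂ) := by
      simp only [hg]; rw [← hx, mul_div_cancel_left₀ _ hrc]
    have h3 : u x = Real.posLog ‖f.1 w‖ := by rw [← hx]; rfl
    rw [h2, ← h3]; exact h1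
  refine ⟨mk (fun z => Complex.exp (g z)) hgd.cexp.differentiableOn, ?_, ?_, ?_⟩
  · rw [isUnit_iff]
    intro z hz
    rw [mk_apply hz]; exact Complex.exp_ne_zero _
  · intro w hw
    have hwD : w ∈ D := hsub (by simpa using hw)
    rw [mk_apply hwD, Complex.norm_exp]
    have hmax : ∀ k : HD, (∀ v : ℂ, ‖v‖ = r → ‖k.1 v‖ ≤ Real.exp ((g v).re)) →
        ‖k.1 w‖ ≤ Real.exp ((g w).re) := by
      intro k hk
      have hdc : DiffContOnCl ℂ (fun z => k.1 z * Complex.exp (-g z)) (ball 0 r) := by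
        refine DifferentiableOn.diffContOnCl ?_
        rw [closure_ball _ hr0.ne']
        exact ((diff k).mono hsub).mul hgd.neg.cexp.differentiableOn
      have h1 := Complex.norm_le_of_forall_mem_frontier_norm_le isBounded_ball hdc (C := 1) ?_
        (z := w) (by rw [closure_ball _ hr0.ne']; simpa using hw)
      · rw [norm_mul, Complex.norm_exp, Complex.neg_re, Real.exp_neg,
          mul_inv_le_iff₀ (Real.exp_pos _), one_mul] at h1
        exact h1
      · intro v hv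
        rw [frontier_ball _ hr0.ne', mem_sphere_zero_iff_norm] at hv
        rw [norm_mul, Complex.norm_exp, Complex.neg_re, Real.exp_neg,
          mul_inv_le_iff₀ (Real.exp_pos _), one_mul]
        exact hk v hv
    constructor
    · have h1 := hmax 1 fun v hv => by
        rw [one_apply, norm_one]
        exact Real.one_le_exp (Real.posLog_nonneg.trans (hsurj v hv).1)
      rwa [one_apply, norm_one] at h1
    · refine hmax f fun v hv => ?_
      exact (le_exp_posLog (norm_nonneg _)).trans (Real.exp_le_exp.2 (hsurj v hv).1)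
  · rw [mk_apply zero_mem, Complex.norm_exp, Real.exp_le_exp,
      ← circleAverage_re hr0 (Subset.rfl) hgd.differentiableOn]
    have h1 : Tc f r + 1 = Real.circleAverage (fun z => Real.posLog ‖f.1 z‖ + 1) 0 r := by
      rw [Real.circleAverage_fun_add (circleIntegrable_posLog f hr0.le hr)
        (circleIntegrable_const _ _ _), Real.circleAverage_const, Tc]
    rw [h1]
    refine Real.circleAverage_mono ?_ ?_ ?_
    · exact ContinuousOn.circleIntegrable hr0.le
        (Complex.continuous_re.comp hgd.continuous).continuousOn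
    · exact (circleIntegrable_posLog f hr0.le hr).add (circleIntegrable_const _ _ _)
    · intro w hw
      rw [abs_of_pos hr0, mem_sphere_zero_iff_norm] at hw
      exact (hsurj w hw).2

end Pool.Agent.R614.Hol
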